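import Pool.Agent.Lib.P2cbQ.Cont

/-!
# Interleaved points of a fibre

Averages of the weighted coordinate functions over interleaved points of a fibre are close to each
other with high probability, uniformly over the members of `TT k`.
-/

set_option autoImplicit false
open Set MeasureTheory

namespace Pool.Agent.Lib.P2cbQ

/-- Bits as real numbers. -/
def bit (b : Bool) : ℝ := if b = true then 1 else 0

lemma bit_le (b : Bool) : |bit b| ≤ 1 := by cases b <;> simp [bit]

lemma bit_nonneg (b : Bool) : 0 ≤ bit b := by cases b <;> simp [bit]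

lemma measurable_bit (x : Gam) : Measurable (fun R : Gam → Bool => bit (R x)) :=
  (measurable_of_finite bit).comp (measurable_coord x)

/-- The centred coordinate. -/
noncomputable def xi (x : Gam) (R : Gam → Bool) : ℝ := bit (R x) - pp x

lemma xi_bdd (x : Gam) (R : Gam → Bool) : |xi x R| ≤ 1 := by
  have h1 := pp_pos x
  have h2 := pp_lt x
  unfold xi bit
  rw [abs_le]
  split_ifs <;> constructor <;> linarith

lemma measurable_xi (x : Gam) : Measurable (xi x) := (measurable_bit x).sub measurable_const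

open scoped Classical in
lemma xi_update_self (x : Gam) (R : Gam → Bool) (b : Bool) :
    xi x (Function.update R x b) = bit b - pp x := by
  unfold xi
  rw [Function.update_self]

open scoped Classical in
lemma xi_update_ne {x y : Gam} (h : y ≠ x) (R : Gam → Bool) (b : Bool) :
    xi y (Function.update R x b) = xi y R := by
  unfold xi
  rw [Function.update_of_ne h]

/-- Weighted sums of centred coordinates. -/
noncomputable def sm (A : Finset Gam) (w : Gam → ℝ) (R : Gam → Bool) : ℝ := ∑ x ∈ A, w x * xi x R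

lemma measurable_sm (A : Finset Gam) (w : Gam → ℝ) : Measurable (sm A w) :=
  Finset.measurable_fun_sum _ fun x _ => (measurable_xi x).const_mul _

lemma sm_bdd (A : Finset Gam) (w : Gam → ℝ) (R : Gam → Bool) :
    |sm A w R| ≤ ∑ x ∈ A, |w x| := by
  unfold sm
  refine (Finset.abs_sum_le_sum_abs _ _).trans (Finset.sum_le_sum fun x _ => ?_)
  rw [abs_mul]
  exact mul_le_of_le_one_right (abs_nonneg _) (xi_bdd x R)

/-- The variance. -/
lemma var_le (A : Finset Gam) (w : Gam → ℝ) :
    ∫ R, (sm A w R) ^ 2 ∂mu = ∑ x ∈ A, (w x) ^ 2 * (pp x * (1 - pp x)) := by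
  classical
  induction A using Finset.induction_on with
  | empty => simp [sm]
  | insert x A hx ih =>
    have hb : ∀ R, |sm A w R| ≤ ∑ x ∈ A, |w x| := sm_bdd A w
    have hC : 0 ≤ ∑ x ∈ A, |w x| := Finset.sum_nonneg fun _ _ => abs_nonneg _
    have e1 : ∀ R, (sm (insert x A) w R) ^ 2 =
        (sm A w R) ^ 2 + (2 * w x) * (xi x R * sm A w R) + (w x) ^ 2 * (xi x R) ^ 2 := by
      intro R
      unfold sm
      rw [Finset.sum_insert hx]
      ring
    have i1 : Integrable (fun R => (sm A w R) ^ 2) mu := by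
      refine integrable_bdd _ ((measurable_sm A w).pow_const 2) ((∑ x ∈ A, |w x|) ^ 2) fun R => ?_
      rw [abs_pow]
      exact pow_le_pow_left₀ (abs_nonneg _) (hb R) 2
    have b2 : ∀ R, |xi x R * sm A w R| ≤ ∑ x ∈ A, |w x| := by
      intro R
      rw [abs_mul]
      exact (mul_le_of_le_one_left (abs_nonneg _) (xi_bdd x R)).trans (hb R)
    have m2 : Measurable (fun R => xi x R * sm A w R) := (measurable_xi x).mul (measurable_sm A w)
    have i2 : Integrable (fun R => xi x R * sm A w R) mu := integrable_bdd _ m2 _ b2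
    have m3 : Measurable (fun R => (xi x R) ^ 2) := (measurable_xi x).pow_const 2
    have b3 : ∀ R, |(xi x R) ^ 2| ≤ 1 := by
      intro R
      rw [abs_pow]
      exact pow_le_one₀ (abs_nonneg _) (xi_bdd x R)
    have i3 : Integrable (fun R => (xi x R) ^ 2) mu := integrable_bdd _ m3 _ b3
    simp_rw [e1]
    have i12 : Integrable (fun R => (sm A w R) ^ 2 + (2 * w x) * (xi x R * sm A w R)) mu :=
      i1.add (i2.const_mul _)
    have i33 : Integrable (fun R => (w x) ^ 2 * (xi x R) ^ 2) mu := i3.const_mul _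
    have i22 : Integrable (fun R => (2 * w x) * (xi x R * sm A w R)) mu := i2.const_mul _
    rw [integral_add i12 i33, integral_add i1 i22,
      integral_const_mul, integral_const_mul, ih, Finset.sum_insert hx]
    have hs : ∀ (R : Gam → Bool) (b : Bool), sm A w (Function.update R x b) = sm A w R := by
      intro R b
      unfold sm
      refine Finset.sum_congr rfl fun y hy => ?_
      have hyx : y ≠ x := fun h => hx (h ▸ hy)
      rw [xi_update_ne hyx]
    have e2 : ∫ R, xi x R * sm A w R ∂mu = 0 := by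
      rw [integral_resample x _ m2 _ b2]
      simp only [hs, xi_update_self, integral_const_mul, bit]
      norm_num
      ring
    have e3 : ∫ R, (xi x R) ^ 2 ∂mu = pp x * (1 - pp x) := by
      rw [integral_resample x _ m3 _ b3]
      simp only [xi_update_self, bit]
      norm_num
      ring
    rw [e2, e3]
    ring

/-- The number of the interleaved pairs separated by a member of `TT k` is at most `k`. -/
lemma card_sep_le (N : ℕ) (x x' : ℕ → Gam) (h1 : ∀ i < N, loc (x i) < loc (x' i))
    (h2 : ∀ i j, i < j → j < N → loc (x' i) < loc (x j)) :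
    ∀ k, ∀ T ∈ TT k, {i | i < N ∧ ¬ (x i ∈ T ↔ x' i ∈ T)}.ncard ≤ k := by
  have hfin : ∀ T : Set Gam, {i | i < N ∧ ¬ (x i ∈ T ↔ x' i ∈ T)}.Finite := fun T =>
    (Set.finite_lt_nat N).subset fun i hi => hi.1
  intro k
  induction k with
  | zero =>
    rintro T rfl
    simp
  | succ k ih =>
    rintro A ⟨T, hT, D, hD, rfl⟩
    have hsub : {i | i < N ∧ ¬ (x i ∈ symmDiff T D ↔ x' i ∈ symmDiff T D)} ⊆
        {i | i < N ∧ ¬ (x i ∈ T ↔ x' i ∈ T)} ∪ {i | i < N ∧ ¬ (x i ∈ D ↔ x' i ∈ D)} := by
      rintro i ⟨hi, hne⟩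
      by_contra hcon
      rw [Set.mem_union, Set.mem_ofPred_eq, Set.mem_ofPred_eq, not_or] at hcon
      obtain ⟨h3, h4⟩ := hcon
      rw [not_and, not_not] at h3 h4
      apply hne
      rw [Set.mem_symmDiff, Set.mem_symmDiff, h3 hi, h4 hi]
    have hD1 : {i | i < N ∧ ¬ (x i ∈ D ↔ x' i ∈ D)}.ncard ≤ 1 := by
      rw [Set.ncard_le_one (hfin D)]
      have key : ∀ i, i < N → ¬ (x i ∈ D ↔ x' i ∈ D) → x i ∈ D ∧ x' i ∉ D := by
        intro i hi hne
        have h3 : x' i ∈ D → x i ∈ D := fun h => hD _ h _ (h1 i hi).le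
        by_cases h4 : x' i ∈ D
        · exact absurd ⟨fun _ => h4, h3⟩ hne
        · refine ⟨?_, h4⟩
          by_contra h5
          exact hne ⟨fun h => absurd h h5, fun h => absurd h h4⟩
      rintro i ⟨hi, hi2⟩ j ⟨hj, hj2⟩
      obtain ⟨hi3, hi4⟩ := key i hi hi2
      obtain ⟨hj3, hj4⟩ := key j hj hj2
      rcases lt_trichotomy i j with h | h | h
      · exact absurd (hD _ hj3 _ (h2 i j h hj).le) hi4
      · exact h
      · exact absurd (hD _ hi3 _ (h2 j i h hi).le) hj4
    calc _ ≤ _ := Set.ncard_le_ncard hsub ((hfin T).union (hfin D))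
      _ ≤ _ := Set.ncard_union_le _ _
      _ ≤ k + 1 := add_le_add (ih T hT) hD1

/-- The difference of the averages over interleaved points of a fibre. -/
noncomputable def Del (pat : ℕ → Pat) (Y : ℕ → ℕ → Gam) (N : ℕ) (z z' : ℕ → ℝ)
    (a : Gam → Bool) : ℝ :=
  (1 / (N : ℝ)) * ∑ i ∈ Finset.range N,
    (cc (Gam.node pat (z i) Y) * bit (a (Gam.node pat (z i) Y)) -
      cc (Gam.node pat (z' i) Y) * bit (a (Gam.node pat (z' i) Y)))

/-- Concentration. -/
theorem conc (pat : ℕ → Pat) (Y : ℕ → ℕ → Gam) (k : ℕ) (η : ℝ) (hη : 0 < η) :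
    ∃ N₀ : ℕ, ∀ N ≥ N₀, ∀ z z' : ℕ → ℝ,
      (∀ i < N, loc (Gam.node pat (z i) Y) < loc (Gam.node pat (z' i) Y)) →
      (∀ i j, i < j → j < N → loc (Gam.node pat (z' i) Y) < loc (Gam.node pat (z j) Y)) →
      ∀ T ∈ TT k, mu {R | η < |Del pat Y N z z' (TR (cut R T))|} ≤
        ENNReal.ofReal ((1 / 2) ^ k) := by
  classical
  obtain ⟨N₁, hN₁⟩ := exists_nat_gt ((k : ℝ) / η)
  obtain ⟨N₂, hN₂⟩ := exists_nat_gt (8 * 2 ^ k / η ^ 2)
  refine ⟨N₁ + N₂ + 1, fun N hN z z' h1 h2 T hT => ?_⟩
  have hNpos : (0 : ℝ) < N := by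
    have : 0 < N := by omega
    exact_mod_cast this
  have hNk : (k : ℝ) ≤ N * η := by
    have h3 : (N₁ : ℝ) ≤ N := by exact_mod_cast (by omega : N₁ ≤ N)
    have h4 := hN₁.trans_le h3
    rw [div_lt_iff₀ hη] at h4
    exact h4.le
  have hN8 : 8 * 2 ^ k ≤ N * η ^ 2 := by
    have h3 : (N₂ : ℝ) ≤ N := by exact_mod_cast (by omega : N₂ ≤ N)
    have h4 := hN₂.trans_le h3
    rw [div_lt_iff₀ (by positivity)] at h4
    exact h4.le
  let x : ℕ → Gam := fun i => Gam.node pat (z i) Y
  let x' : ℕ → Gam := fun i => Gam.node pat (z' i) Y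
  have g1 : ∀ i < N, loc (x i) < loc (x' i) := h1
  have g2 : ∀ i j, i < j → j < N → loc (x' i) < loc (x j) := h2
  -- all points are distinct
  have hxx : ∀ i < N, ∀ j < N, x i = x j → i = j := by
    intro i hi j hj h
    rcases lt_trichotomy i j with h3 | h3 | h3
    · have := (g1 i hi).trans (g2 i j h3 hj)
      rw [h] at this; exact absurd this (lt_irrefl _)
    · exact h3
    · have := (g1 j hj).trans (g2 j i h3 hi)
      rw [h] at this; exact absurd this (lt_irrefl _)
  have hxx' : ∀ i < N, ∀ j < N, x' i = x' j → i = j := by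
    intro i hi j hj h
    rcases lt_trichotomy i j with h3 | h3 | h3
    · have := (g2 i j h3 hj).trans (g1 j hj)
      rw [h] at this; exact absurd this (lt_irrefl _)
    · exact h3
    · have := (g2 j i h3 hi).trans (g1 i hi)
      rw [h] at this; exact absurd this (lt_irrefl _)
  have hne : ∀ i < N, ∀ j < N, x i ≠ x' j := by
    intro i hi j hj h
    rcases lt_or_ge j i with h3 | h3
    · have := g2 j i h3 hi
      rw [h] at this; exact absurd this (lt_irrefl _)
    · rcases h3.lt_or_eq with h4 | h4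
      · have := (g1 i hi).trans ((g2 i j h4 hj).trans (g1 j hj))
        rw [h] at this; exact absurd this (lt_irrefl _)
      · subst h4
        have := g1 i hi
        rw [h] at this; exact absurd this (lt_irrefl _)
  let A : Finset Gam := (Finset.range N).image x
  let A' : Finset Gam := (Finset.range N).image x'
  have hdisj : Disjoint A A' := by
    rw [Finset.disjoint_left]
    intro y hy hy'
    obtain ⟨i, hi, rfl⟩ := Finset.mem_image.1 hy
    obtain ⟨j, hj, h⟩ := Finset.mem_image.1 hy'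
    exact hne i (Finset.mem_range.1 hi) j (Finset.mem_range.1 hj) h.symm
  let tT : Gam → ℝ := fun y => if y ∈ T then 1 else 0
  let w : Gam → ℝ := fun y => (if y ∈ A then 1 else -1) * (cc y * tT y)
  have htT : ∀ y, tT y = 0 ∨ tT y = 1 := by
    intro y
    by_cases h : y ∈ T
    · right; simp [tT, h]
    · left; simp [tT, h]
  have hinj : Set.InjOn x (Finset.range N) := fun i hi j hj h =>
    hxx i (Finset.mem_range.1 hi) j (Finset.mem_range.1 hj) h
  have hinj' : Set.InjOn x' (Finset.range N) := fun i hi j hj h =>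
    hxx' i (Finset.mem_range.1 hi) j (Finset.mem_range.1 hj) h
  -- the main part
  let W : (Gam → Bool) → ℝ := fun R => ∑ i ∈ Finset.range N,
    (cc (x i) * tT (x i) * bit (R (x i)) - cc (x' i) * tT (x' i) * bit (R (x' i)))
  let m : ℝ := ∑ i ∈ Finset.range N, (tT (x i) - tT (x' i))
  have hW : ∀ R, W R = sm (A ∪ A') w R + (1 / 2) * m := by
    intro R
    unfold sm
    rw [Finset.sum_union hdisj, Finset.sum_image hinj, Finset.sum_image hinj',
      ← Finset.sum_add_distrib, Finset.mul_sum, ← Finset.sum_add_distrib]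
    refine Finset.sum_congr rfl fun i hi => ?_
    have e1 : x i ∈ A := Finset.mem_image_of_mem _ hi
    have e2 : x' i ∉ A := fun h => (Finset.disjoint_left.1 hdisj h) (Finset.mem_image_of_mem _ hi)
    have e3 := cc_mul_pp (x i)
    have e4 := cc_mul_pp (x' i)
    simp only [w, e1, e2, if_true, if_false, xi]
    have : cc (x i) * tT (x i) * bit (R (x i)) - cc (x' i) * tT (x' i) * bit (R (x' i)) =
        1 * (cc (x i) * tT (x i)) * (bit (R (x i)) - pp (x i)) +
          -1 * (cc (x' i) * tT (x' i)) * (bit (R (x' i)) - pp (x' i)) +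
        ((cc (x i) * pp (x i)) * tT (x i) - (cc (x' i) * pp (x' i)) * tT (x' i)) := by ring
    rw [this, e3, e4]
    ring
  have hm : |m| ≤ k := by
    have h3 := card_sep_le N x x' g1 g2 k T hT
    have h4 : |m| ≤ ∑ i ∈ Finset.range N, |tT (x i) - tT (x' i)| :=
      Finset.abs_sum_le_sum_abs _ _
    have h5 : ∑ i ∈ Finset.range N, |tT (x i) - tT (x' i)| =
        (((Finset.range N).filter (fun i => ¬ (x i ∈ T ↔ x' i ∈ T))).card : ℝ) := by
      rw [Finset.card_filter, Nat.cast_sum]
      refine Finset.sum_congr rfl fun i _ => ?_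
      by_cases c1 : x i ∈ T <;> by_cases c2 : x' i ∈ T <;> simp [tT, c1, c2]
    have h6 : {i | i < N ∧ ¬ (x i ∈ T ↔ x' i ∈ T)} =
        (((Finset.range N).filter (fun i => ¬ (x i ∈ T ↔ x' i ∈ T)) : Finset ℕ) : Set ℕ) := by
      ext i; simp
    rw [h6, Set.ncard_coe_finset] at h3
    have h7 : (((Finset.range N).filter (fun i => ¬ (x i ∈ T ↔ x' i ∈ T))).card : ℝ) ≤ k := by
      exact_mod_cast h3
    linarith
  -- domination
  have hdom : ∀ R, |Del pat Y N z z' (TR (cut R T))| ≤ (1 / (N : ℝ)) * |W R| := by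
    intro R
    unfold Del
    rw [abs_mul, abs_of_pos (by positivity : (0 : ℝ) < 1 / (N : ℝ))]
    refine mul_le_mul_of_nonneg_left ?_ (by positivity)
    by_cases hq : Valid pat (fun j i => tr (Y j i)) →
        ∀ j, ¬ ev (pat j) (fun i => tr (Y j i) (cut R T))
    · have e1 : ∀ u : ℝ, cc (Gam.node pat u Y) * bit (TR (cut R T) (Gam.node pat u Y)) =
          cc (Gam.node pat u Y) * tT (Gam.node pat u Y) * bit (R (Gam.node pat u Y)) := by
        intro u
        have e2 : TR (cut R T) (Gam.node pat u Y) = cut R T (Gam.node pat u Y) := by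
          rw [Bool.eq_iff_iff]
          unfold TR
          rw [tr_node]
          exact ⟨fun h => h.1, fun h => ⟨h, hq⟩⟩
        rw [e2]
        unfold cut
        by_cases c1 : Gam.node pat u Y ∈ T
        · simp [tT, c1]
        · simp [tT, c1, bit]
      simp_rw [e1]
      exact le_rfl
    · have e1 : ∀ u : ℝ, bit (TR (cut R T) (Gam.node pat u Y)) = 0 := by
        intro u
        have e2 : TR (cut R T) (Gam.node pat u Y) ≠ true := by
          unfold TR
          rw [ne_eq, tr_node]
          exact fun h => hq h.2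
        simp [bit, e2]
      simp [e1]
  -- Chebyshev
  have hN2 : 0 < (N : ℝ) * η / 2 := by positivity
  have hsub : {R | η < |Del pat Y N z z' (TR (cut R T))|} ⊆
      {R | ((N : ℝ) * η / 2) ^ 2 ≤ (sm (A ∪ A') w R) ^ 2} := by
    intro R hR
    have h3 : η < (1 / (N : ℝ)) * |W R| := lt_of_lt_of_le hR (hdom R)
    have h4 : N * η < |W R| := by
      rw [one_div, ← div_eq_inv_mul, lt_div_iff₀ hNpos] at h3
      linarith
    have h5 : |W R| ≤ |sm (A ∪ A') w R| + (1 / 2) * k := by
      rw [hW]
      refine (abs_add_le _ _).trans ?_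
      rw [abs_mul]
      have : |(1 / 2 : ℝ)| = 1 / 2 := abs_of_pos (by norm_num)
      rw [this]
      linarith
    have h6 : (N : ℝ) * η / 2 ≤ |sm (A ∪ A') w R| := by linarith
    rw [Set.mem_ofPred_eq, ← sq_abs (sm (A ∪ A') w R)]
    exact pow_le_pow_left₀ hN2.le h6 2
  have hvar : ∫ R, (sm (A ∪ A') w R) ^ 2 ∂mu ≤ 2 * N := by
    rw [var_le]
    have h3 : ∀ y ∈ A ∪ A', (w y) ^ 2 * (pp y * (1 - pp y)) ≤ 1 := by
      intro y _
      have c1 := cc_mul_pp y
      have c2 := pp_pos y
      have c3 := pp_lt y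
      have c4 := cc_le y
      have c5 := cc_pos y
      have h4 : (w y) ^ 2 ≤ (cc y) ^ 2 := by
        simp only [w]
        have e1 : ((if y ∈ A then (1 : ℝ) else -1) * (cc y * tT y)) ^ 2 =
            (if y ∈ A then (1 : ℝ) else -1) ^ 2 * ((cc y) ^ 2 * (tT y) ^ 2) := by ring
        have e2 : (if y ∈ A then (1 : ℝ) else -1) ^ 2 = 1 := by split_ifs <;> norm_num
        rw [e1, e2, one_mul]
        rcases htT y with h | h <;> rw [h]
        · have := sq_nonneg (cc y)
          nlinarith
        · simp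
      have h5 : (cc y) ^ 2 * (pp y * (1 - pp y)) ≤ 1 := by
        have e1 : (cc y) ^ 2 * (pp y * (1 - pp y)) = cc y * (cc y * pp y) * (1 - pp y) := by ring
        rw [e1, c1]
        nlinarith
      have h6 : 0 ≤ pp y * (1 - pp y) := mul_nonneg c2.le (by linarith)
      exact (mul_le_mul_of_nonneg_right h4 h6).trans h5
    refine (Finset.sum_le_sum h3).trans ?_
    rw [Finset.sum_const, nsmul_eq_mul, mul_one]
    have h7 : (A ∪ A').card ≤ N + N := by
      refine (Finset.card_union_le _ _).trans (add_le_add ?_ ?_)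
      · exact Finset.card_image_le.trans (Finset.card_range N).le
      · exact Finset.card_image_le.trans (Finset.card_range N).le
    have h8 : ((A ∪ A').card : ℝ) ≤ ((N + N : ℕ) : ℝ) := by exact_mod_cast h7
    push_cast at h8
    linarith
  have hi : Integrable (fun R => (sm (A ∪ A') w R) ^ 2) mu := by
    refine integrable_bdd _ ((measurable_sm _ w).pow_const 2) ((∑ x ∈ A ∪ A', |w x|) ^ 2)
      fun R => ?_
    rw [abs_pow]
    exact pow_le_pow_left₀ (abs_nonneg _) (sm_bdd _ w R) 2
  have hmk := mul_meas_ge_le_integral_of_nonneg (μ := mu)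
    (Filter.Eventually.of_forall fun R => sq_nonneg (sm (A ∪ A') w R)) hi (((N : ℝ) * η / 2) ^ 2)
  refine (measure_mono hsub).trans ?_
  rw [← ENNReal.ofReal_toReal (measure_ne_top mu _)]
  apply ENNReal.ofReal_le_ofReal
  have h3 : ((N : ℝ) * η / 2) ^ 2 *
      (mu {R | ((N : ℝ) * η / 2) ^ 2 ≤ (sm (A ∪ A') w R) ^ 2}).toReal ≤ 2 * N := hmk.trans hvar
  set P : ℝ := (mu {R | ((N : ℝ) * η / 2) ^ 2 ≤ (sm (A ∪ A') w R) ^ 2}).toReal with hP
  have hP0 : 0 ≤ P := ENNReal.toReal_nonneg
  have h4 : N * η ^ 2 * P ≤ 8 := by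
    have h5 : N * (N * η ^ 2 * P) ≤ N * 8 := by nlinarith
    exact le_of_mul_le_mul_left h5 hNpos
  have h6 : 8 * 2 ^ k * P ≤ 8 := (mul_le_mul_of_nonneg_right hN8 hP0).trans h4
  have h7 : (2 : ℝ) ^ k * P ≤ 1 := by nlinarith
  have h8 : (1 / 2 : ℝ) ^ k * (2 ^ k * P) = P := by
    rw [← mul_assoc, ← mul_pow]
    norm_num
  rw [← h8]
  exact (mul_le_mul_of_nonneg_left h7 (by positivity)).trans (by rw [mul_one])

end Pool.Agent.Lib.P2cbQ
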