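import Mathlib

/-!
# The index set

`Gam` is an inductively defined index set of size continuum: a node carries a sequence of finite
patterns, a double sequence of earlier nodes and a real number. All nodes with the same patterns and
the same earlier nodes form a fibre, indexed by the real numbers. `loc` is an injection of `Gam` into
the reals, and `SS` is a subset of `Gam` which in no fibre is Borel with respect to `loc`.
-/

set_option autoImplicit false
open Set

namespace Pool.Agent.Lib.P2cbQ

/-- Codes for conditions on finitely many bits. -/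
abbrev Pat : Type := ℕ × Finset (Finset ℕ)

/-- The condition with code `q` on a sequence of bits: the set of the positions below `q.1` with
bit `true` belongs to `q.2`. -/
def ev (q : Pat) (b : ℕ → Bool) : Prop :=
  (Finset.range q.1).filter (fun i => b i = true) ∈ q.2

/-- The index set. -/
inductive Gam : Type
  | base : Gam
  | node (pat : ℕ → Pat) (z : ℝ) (Y : ℕ → ℕ → Gam) : Gam

/-- Labels of the nodes of a well founded tree, as a function of finite paths. -/
def enc : Gam → List (ℕ × ℕ) → Option ((ℕ → Pat) × ℝ)
  | Gam.base => fun _ => none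
  | Gam.node pat z Y => fun l => match l with
    | [] => some (pat, z)
    | p :: l => enc (Y p.1 p.2) l

lemma enc_injective : Function.Injective enc := by
  intro x
  induction x with
  | base =>
    intro y h
    cases y with
    | base => rfl
    | node pat z Y =>
      have h1 := congrFun h []
      simp [enc] at h1
  | node pat z Y ih =>
    intro y h
    cases y with
    | base =>
      have h1 := congrFun h []
      simp [enc] at h1
    | node pat' z' Y' =>
      have h1 := congrFun h []
      simp only [enc, Option.some.injEq, Prod.mk.injEq] at h1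
      obtain ⟨rfl, rfl⟩ := h1
      congr 1
      funext i j
      apply ih i j
      funext l
      have h2 := congrFun h ((i, j) :: l)
      simpa [enc] using h2

lemma mk_gam_le : Cardinal.mk Gam ≤ Cardinal.continuum := by
  have h1 := Cardinal.mk_le_of_injective enc_injective
  refine h1.trans ?_
  have h2 : Cardinal.mk (Option ((ℕ → Pat) × ℝ)) ≤ Cardinal.continuum := by
    rw [Cardinal.mk_option]
    have h3 : Cardinal.mk ((ℕ → Pat) × ℝ) = Cardinal.continuum := by
      simp [Cardinal.mk_real]
    rw [h3]
    exact (Cardinal.add_one_eq Cardinal.aleph0_le_continuum).le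
  have h4 : Cardinal.mk (List (ℕ × ℕ) → Option ((ℕ → Pat) × ℝ)) =
      Cardinal.mk (Option ((ℕ → Pat) × ℝ)) ^ Cardinal.mk (List (ℕ × ℕ)) := by simp
  have h5 : Cardinal.mk (List (ℕ × ℕ)) = Cardinal.aleph0 := by simp
  rw [h4, h5]
  calc _ ≤ Cardinal.continuum ^ Cardinal.aleph0 := Cardinal.power_le_power_right h2
    _ = Cardinal.continuum := Cardinal.continuum_power_aleph0

lemma exists_loc : ∃ e : Gam → ℝ, Function.Injective e := by
  have h : Cardinal.mk Gam ≤ Cardinal.mk ℝ := by
    rw [Cardinal.mk_real]
    exact mk_gam_le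
  obtain ⟨e⟩ := Cardinal.le_def _ _ |>.1 h
  exact ⟨e, e.injective⟩

/-- An injection of the index set into the real numbers. -/
noncomputable def loc : Gam → ℝ := exists_loc.choose

lemma loc_injective : Function.Injective loc := exists_loc.choose_spec

/-- A countably generated `σ`-algebra on the reals does not contain all sets. -/
lemma exists_not_measurable (h : ℝ → ℝ) :
    ∃ A : Set ℝ, ¬ @MeasurableSet ℝ (MeasurableSpace.comap h (borel ℝ)) A := by
  by_contra hcon
  push Not at hcon
  have h1 : MeasurableSpace.comap h (borel ℝ) =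
      MeasurableSpace.generateFrom (Set.preimage h '' (Set.range Set.Iio)) := by
    rw [borel_eq_generateFrom_Iio, MeasurableSpace.comap_generateFrom]
  have h2 : Cardinal.mk (Set.preimage h '' (Set.range (Set.Iio : ℝ → Set ℝ)) : Set (Set ℝ)) ≤
      Cardinal.continuum := by
    refine Cardinal.mk_image_le.trans (Cardinal.mk_range_le.trans ?_)
    rw [Cardinal.mk_real]
  have h3 := MeasurableSpace.cardinal_measurableSet_le_continuum h2
  rw [← h1] at h3
  have h4 : {t : Set ℝ | @MeasurableSet ℝ (MeasurableSpace.comap h (borel ℝ)) t} = Set.univ := by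
    ext t
    simp only [Set.mem_ofPred_eq, Set.mem_univ, iff_true]
    exact hcon t
  rw [h4, Cardinal.mk_univ, Cardinal.mk_set, Cardinal.mk_real] at h3
  exact absurd h3 (not_le.2 (Cardinal.cantor _))

lemma exists_SS : ∃ S : Set Gam, ∀ (pat : ℕ → Pat) (Y : ℕ → ℕ → Gam),
    ¬ @MeasurableSet ℝ (MeasurableSpace.comap (fun z => loc (Gam.node pat z Y)) (borel ℝ))
      {z : ℝ | Gam.node pat z Y ∈ S} := by
  choose A hA using fun (pat : ℕ → Pat) (Y : ℕ → ℕ → Gam) =>
    exists_not_measurable (fun z => loc (Gam.node pat z Y))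
  let S : Set Gam := {x | ∃ (pat : ℕ → Pat) (z : ℝ) (Y : ℕ → ℕ → Gam),
    x = Gam.node pat z Y ∧ z ∈ A pat Y}
  refine ⟨S, fun pat Y => ?_⟩
  have h1 : {z : ℝ | Gam.node pat z Y ∈ S} = A pat Y := by
    ext z
    simp only [Set.mem_ofPred_eq, S]
    constructor
    · rintro ⟨pat', z', Y', h, hz⟩
      rw [Gam.node.injEq] at h
      obtain ⟨rfl, rfl, rfl⟩ := h
      exact hz
    · intro h
      exact ⟨pat, z, Y, rfl, h⟩
  rw [h1]
  exact hA pat Y

/-- A subset of the index set which is Borel in no fibre. -/
noncomputable def SS : Set Gam := exists_SS.choose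

lemma SS_spec (pat : ℕ → Pat) (Y : ℕ → ℕ → Gam) :
    ¬ @MeasurableSet ℝ (MeasurableSpace.comap (fun z => loc (Gam.node pat z Y)) (borel ℝ))
      {z : ℝ | Gam.node pat z Y ∈ SS} := exists_SS.choose_spec pat Y

/-- A condition on finitely many coordinates has a code. -/
lemma exists_code (H : Finset Gam) (Q : (Gam → Bool) → Prop)
    (hQ : ∀ a b : Gam → Bool, (∀ y ∈ H, a y = b y) → (Q a ↔ Q b)) :
    ∃ (q : Pat) (Y : ℕ → Gam), ∀ a : Gam → Bool, Q a ↔ ev q (fun i => a (Y i)) := by
  classical
  let n := H.card
  let eqv : H ≃ Fin n := H.equivFin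
  let Y : ℕ → Gam := fun i => if h : i < n then (eqv.symm ⟨i, h⟩).1 else Gam.base
  let idx : Gam → ℕ := fun y => if h : y ∈ H then (eqv ⟨y, h⟩).1 else 0
  have hidx : ∀ y ∈ H, idx y < n ∧ Y (idx y) = y := by
    intro y hy
    have h1 : idx y = (eqv ⟨y, hy⟩).1 := by simp [idx, hy]
    have h2 : idx y < n := by rw [h1]; exact (eqv ⟨y, hy⟩).2
    refine ⟨h2, ?_⟩
    have h3 : Y (idx y) = (eqv.symm ⟨idx y, h2⟩).1 := by simp [Y, h2]
    rw [h3]
    have h4 : (⟨idx y, h2⟩ : Fin n) = eqv ⟨y, hy⟩ := Fin.ext h1
    rw [h4, Equiv.symm_apply_apply]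
  -- the patterns
  let dec : Finset ℕ → (Gam → Bool) := fun s y => decide (idx y ∈ s)
  let P : Finset (Finset ℕ) := (Finset.range n).powerset.filter (fun s => Q (dec s))
  refine ⟨(n, P), Y, fun a => ?_⟩
  unfold ev
  simp only [P, Finset.mem_filter, Finset.mem_powerset]
  have hsub : (Finset.range n).filter (fun i => a (Y i) = true) ⊆ Finset.range n :=
    Finset.filter_subset _ _
  rw [and_iff_right hsub]
  apply hQ
  intro y hy
  obtain ⟨h1, h2⟩ := hidx y hy
  simp only [dec, Finset.mem_filter, Finset.mem_range, h1, true_and, h2]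
  cases a y <;> simp

end Pool.Agent.Lib.P2cbQ
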