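import Pool.Agent.Lib.P2cbQ.Prob

/-!
# Continuity in the set `T`

For fixed `k` the law of the trimmed set depends continuously on `T ∈ TT k`, for the topology of
pointwise convergence.
-/

set_option autoImplicit false
open Set MeasureTheory

namespace Pool.Agent.Lib.P2cbQ

lemma tail_le (pat : ℕ → Pat) (t : ℕ → ℕ → (Gam → Bool) → Bool) (hv : Valid pat t) {k J : ℕ}
    (hkJ : k ≤ J) {T : Set Gam} (hT : T ∈ TT k) :
    mu (⋃ n : ℕ, {R | ev (pat (J + n)) (fun i => t (J + n) i (cut R T))}) ≤
      ENNReal.ofReal (2 * (1 / 2) ^ J) := by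
  refine (measure_iUnion_le _).trans ?_
  refine (ENNReal.tsum_le_tsum (fun n => (hv (J + n)).2 T (TT_mono (by omega) hT))).trans ?_
  have h1 : ∀ n : ℕ, ((1 : ℝ) / 2) ^ (J + n) = (1 / 2) ^ J * (1 / 2) ^ n := fun n => pow_add _ _ _
  have h2 : Summable (fun n : ℕ => ((1 : ℝ) / 2) ^ (J + n)) := by
    simp_rw [h1]
    exact summable_geometric_two.mul_left _
  rw [← ENNReal.ofReal_tsum_of_nonneg (fun n => by positivity) h2]
  simp_rw [h1]
  rw [tsum_mul_left, tsum_geometric_two, mul_comm]

/-- Continuity of the trimming in probability. -/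
theorem tr_cont (x : Gam) : ∀ (k : ℕ) (ε : ℝ), 0 < ε → ∃ H : Finset Gam,
    ∀ T ∈ TT k, ∀ T' ∈ TT k, (∀ y ∈ H, y ∈ T ↔ y ∈ T') →
      mu {R | tr x (cut R T) ≠ tr x (cut R T')} ≤ ENNReal.ofReal ε := by
  classical
  induction x with
  | base =>
    intro k ε hε
    refine ⟨{Gam.base}, fun T _ T' _ h => ?_⟩
    have h1 : {R | tr Gam.base (cut R T) ≠ tr Gam.base (cut R T')} = ∅ := by
      ext R
      have h2 := h Gam.base (Finset.mem_singleton_self _)
      simp only [tr_base, cut, h2, Set.mem_ofPred_eq, ne_eq, not_true_eq_false,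
        Set.mem_empty_iff_false]
    rw [h1, measure_empty]
    exact zero_le
  | node pat z Y ih =>
    intro k ε hε
    by_cases hv : Valid pat (fun j i => tr (Y j i))
    · -- the cut
      obtain ⟨J₀, hJ₀⟩ : ∃ J₀ : ℕ, ((1 : ℝ) / 2) ^ J₀ < ε / 8 :=
        exists_pow_lt_of_lt_one (by linarith) (by norm_num)
      let J := max k J₀
      have hkJ : k ≤ J := le_max_left _ _
      have hJ : ((1 : ℝ) / 2) ^ J ≤ ε / 8 := by
        refine le_trans ?_ hJ₀.le
        exact pow_le_pow_of_le_one (by norm_num) (by norm_num) (le_max_right _ _)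
      let I : Finset (ℕ × ℕ) := (Finset.range J).biUnion
        (fun j => (Finset.range (pat j).1).image (fun i => (j, i)))
      have hI : ∀ j i, j < J → i < (pat j).1 → (j, i) ∈ I := by
        intro j i hj hi
        exact Finset.mem_biUnion.2 ⟨j, Finset.mem_range.2 hj,
          Finset.mem_image.2 ⟨i, Finset.mem_range.2 hi, rfl⟩⟩
      set δ : ℝ := ε / (2 * (I.card + 1)) with hδ
      have hδ0 : 0 < δ := by positivity
      choose H hH using fun (p : ℕ × ℕ) => ih p.1 p.2 k δ hδ0
      refine ⟨insert (Gam.node pat z Y) (I.biUnion H), fun T hT T' hT' hag => ?_⟩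
      have hx : Gam.node pat z Y ∈ T ↔ Gam.node pat z Y ∈ T' :=
        hag _ (Finset.mem_insert_self _ _)
      have hsub : {R | tr (Gam.node pat z Y) (cut R T) ≠ tr (Gam.node pat z Y) (cut R T')} ⊆
          (⋃ p ∈ I, {R | tr (Y p.1 p.2) (cut R T) ≠ tr (Y p.1 p.2) (cut R T')}) ∪
          ((⋃ n : ℕ, {R | ev (pat (J + n)) (fun i => tr (Y (J + n) i) (cut R T))}) ∪
            (⋃ n : ℕ, {R | ev (pat (J + n)) (fun i => tr (Y (J + n) i) (cut R T'))})) := by
        intro R hR
        by_contra hcon
        rw [Set.mem_union, Set.mem_union, not_or, not_or] at hcon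
        obtain ⟨h1, h2, h3⟩ := hcon
        simp only [Set.mem_iUnion, Set.mem_ofPred_eq, not_exists, not_not] at h1 h2 h3
        apply hR
        rw [Bool.eq_iff_iff, tr_node, tr_node, cut_eq_true, cut_eq_true, hx]
        have h4 : (∀ j, ¬ ev (pat j) (fun i => tr (Y j i) (cut R T))) ↔
            ∀ j, ¬ ev (pat j) (fun i => tr (Y j i) (cut R T')) := by
          refine forall_congr' fun j => not_congr ?_
          rcases lt_or_ge j J with hj | hj
          · apply ev_congr
            intro i hi
            exact h1 (j, i) (hI j i hj hi)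
          · obtain ⟨n, rfl⟩ := Nat.exists_eq_add_of_le hj
            exact ⟨fun h => absurd h (h2 n), fun h => absurd h (h3 n)⟩
        rw [h4]
      refine (measure_mono hsub).trans ((measure_union_le _ _).trans ?_)
      have hb1 : mu (⋃ p ∈ I, {R | tr (Y p.1 p.2) (cut R T) ≠ tr (Y p.1 p.2) (cut R T')}) ≤
          ENNReal.ofReal (ε / 2) := by
        refine (measure_biUnion_finset_le _ _).trans ?_
        have h1 : ∀ p ∈ I, mu {R | tr (Y p.1 p.2) (cut R T) ≠ tr (Y p.1 p.2) (cut R T')} ≤
            ENNReal.ofReal δ := by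
          intro p hp
          apply hH p T hT T' hT'
          intro y hy
          exact hag y (Finset.mem_insert_of_mem (Finset.mem_biUnion.2 ⟨p, hp, hy⟩))
        refine (Finset.sum_le_sum h1).trans ?_
        rw [Finset.sum_const, nsmul_eq_mul, ← ENNReal.ofReal_natCast, ← ENNReal.ofReal_mul
          (by positivity)]
        apply ENNReal.ofReal_le_ofReal
        rw [hδ]
        have h3 : (0 : ℝ) ≤ I.card := by positivity
        rw [mul_div_assoc', div_le_div_iff₀ (by positivity) (by norm_num)]
        nlinarith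
      have hb2 : mu ((⋃ n : ℕ, {R | ev (pat (J + n)) (fun i => tr (Y (J + n) i) (cut R T))}) ∪
            (⋃ n : ℕ, {R | ev (pat (J + n)) (fun i => tr (Y (J + n) i) (cut R T'))})) ≤
          ENNReal.ofReal (ε / 2) := by
        refine (measure_union_le _ _).trans ?_
        have h1 := tail_le pat (fun j i => tr (Y j i)) hv hkJ hT
        have h2 := tail_le pat (fun j i => tr (Y j i)) hv hkJ hT'
        refine (add_le_add h1 h2).trans ?_
        rw [← ENNReal.ofReal_add (by positivity) (by positivity)]
        apply ENNReal.ofReal_le_ofReal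
        linarith
      refine (add_le_add hb1 hb2).trans ?_
      rw [← ENNReal.ofReal_add (by linarith) (by linarith)]
      apply ENNReal.ofReal_le_ofReal
      linarith
    · refine ⟨{Gam.node pat z Y}, fun T _ T' _ h => ?_⟩
      have h1 : {R | tr (Gam.node pat z Y) (cut R T) ≠ tr (Gam.node pat z Y) (cut R T')} = ∅ := by
        ext R
        have h2 := h (Gam.node pat z Y) (Finset.mem_singleton_self _)
        simp only [Set.mem_ofPred_eq, Set.mem_empty_iff_false, iff_false, ne_eq, not_not]
        rw [Bool.eq_iff_iff, tr_node, tr_node, cut_eq_true, cut_eq_true, h2]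
        simp only [hv, false_imp_iff]
      rw [h1, measure_empty]
      exact zero_le

lemma integrable_bdd (F : (Gam → Bool) → ℝ) (hF : Measurable F) (C : ℝ)
    (hC : ∀ R, |F R| ≤ C) : Integrable F mu :=
  Integrable.of_bound hF.aestronglyMeasurable C (Filter.Eventually.of_forall fun R => by
    rw [Real.norm_eq_abs]; exact hC R)

lemma abs_le_nrm (g : C(Gam → Bool, ℝ)) (a : Gam → Bool) : |g a| ≤ ‖g‖ := by
  have := g.norm_coe_le_norm a
  rwa [Real.norm_eq_abs] at this

lemma measurable_gTR (g : C(Gam → Bool, ℝ)) (T : Set Gam) :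
    Measurable (fun R => g (TR (cut R T))) := (measurable_cont g).comp (measurable_TRcut T)

lemma integrable_gTR (g : C(Gam → Bool, ℝ)) (T : Set Gam) :
    Integrable (fun R => g (TR (cut R T))) mu :=
  integrable_bdd _ (measurable_gTR g T) ‖g‖ fun _ => abs_le_nrm g _

/-- Continuity of the integrals of continuous functions. -/
theorem int_cont (g : C(Gam → Bool, ℝ)) (k : ℕ) (ε : ℝ) (hε : 0 < ε) :
    ∃ H : Finset Gam, ∀ T ∈ TT k, ∀ T' ∈ TT k, (∀ y ∈ H, y ∈ T ↔ y ∈ T') →
      |∫ R, g (TR (cut R T)) ∂mu - ∫ R, g (TR (cut R T')) ∂mu| ≤ ε := by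
  classical
  obtain ⟨G, hG⟩ := exists_finite_dep g (ε / 2) (by linarith)
  set δ : ℝ := ε / (4 * (‖g‖ + 1) * (G.card + 1)) with hδ
  have hδ0 : 0 < δ := by
    have := norm_nonneg g
    positivity
  choose H hH using fun x : Gam => tr_cont x k δ hδ0
  refine ⟨G.biUnion H, fun T hT T' hT' hag => ?_⟩
  let B : Set (Gam → Bool) := ⋃ x ∈ G, {R | tr x (cut R T) ≠ tr x (cut R T')}
  have hBm : MeasurableSet B := by
    refine Finset.measurableSet_biUnion _ fun x _ => ?_
    have h1 : Measurable (fun R => tr x (cut R T)) := (measurable_tr x).comp (measurable_cut T)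
    have h2 : Measurable (fun R => tr x (cut R T')) := (measurable_tr x).comp (measurable_cut T')
    exact (measurableSet_eq_fun h1 h2).compl
  have hB : mu B ≤ ENNReal.ofReal (G.card * δ) := by
    refine (measure_biUnion_finset_le _ _).trans ?_
    have h1 : ∀ x ∈ G, mu {R | tr x (cut R T) ≠ tr x (cut R T')} ≤ ENNReal.ofReal δ := by
      intro x hx
      apply hH x T hT T' hT'
      intro y hy
      exact hag y (Finset.mem_biUnion.2 ⟨x, hx, hy⟩)
    refine (Finset.sum_le_sum h1).trans ?_
    rw [Finset.sum_const, nsmul_eq_mul, ← ENNReal.ofReal_natCast, ← ENNReal.ofReal_mul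
      (by positivity)]
  have hpt : ∀ R, |g (TR (cut R T)) - g (TR (cut R T'))| ≤
      ε / 2 + 2 * ‖g‖ * B.indicator (fun _ => (1 : ℝ)) R := by
    intro R
    by_cases hR : R ∈ B
    · rw [Set.indicator_of_mem hR]
      have h1 := abs_sub (g (TR (cut R T))) (g (TR (cut R T')))
      have h2 := abs_le_nrm g (TR (cut R T))
      have h3 := abs_le_nrm g (TR (cut R T'))
      linarith
    · rw [Set.indicator_of_notMem hR]
      have h1 : |g (TR (cut R T)) - g (TR (cut R T'))| < ε / 2 := by
        apply hG
        intro x hx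
        by_contra hne
        exact hR (Set.mem_iUnion₂.2 ⟨x, hx, hne⟩)
      linarith
  rw [← integral_sub (integrable_gTR g T) (integrable_gTR g T')]
  have hind : Integrable (B.indicator (fun _ => (1 : ℝ))) mu :=
    (integrable_const (1 : ℝ)).indicator hBm
  calc |∫ R, (g (TR (cut R T)) - g (TR (cut R T'))) ∂mu|
      ≤ ∫ R, |g (TR (cut R T)) - g (TR (cut R T'))| ∂mu := abs_integral_le_integral_abs
    _ ≤ ∫ R, (ε / 2 + 2 * ‖g‖ * B.indicator (fun _ => (1 : ℝ)) R) ∂mu := by
        apply integral_mono
        · exact ((integrable_gTR g T).sub (integrable_gTR g T')).abs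
        · exact (integrable_const _).add (hind.const_mul _)
        · exact hpt
    _ = ε / 2 + 2 * ‖g‖ * (mu B).toReal := by
        rw [integral_add (integrable_const _) (hind.const_mul _), integral_const_mul,
          integral_indicator_const _ hBm]
        simp [Measure.real]
    _ ≤ ε / 2 + 2 * ‖g‖ * (G.card * δ) := by
        have h1 : (mu B).toReal ≤ G.card * δ := ENNReal.toReal_le_of_le_ofReal (by positivity) hB
        have h2 := norm_nonneg g
        gcongr
    _ ≤ ε := by
        have h2 := norm_nonneg g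
        have h3 : δ * (4 * (‖g‖ + 1) * (G.card + 1)) = ε := by
          rw [hδ]
          field_simp
        have h4 : (0 : ℝ) ≤ G.card := by positivity
        nlinarith [mul_nonneg h2 h4, mul_nonneg (mul_nonneg h2 h4) hδ0.le, mul_nonneg h2 hδ0.le,
          mul_nonneg h4 hδ0.le]

end Pool.Agent.Lib.P2cbQ
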