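import Pool.Agent.Lib.P2cbQ.Card

/-!
# Random sets, recursive trimming and the compact space

Every index `x` gets the weight `cc x`, equal to `2` on `SS` and to `1` elsewhere, and `mu` is the
law of a random subset of the index set which contains `x` with probability `1 / (2 cc x)`. The sets
in `TT k` are the symmetric differences of `k` lower sets of the order given by `loc`. The trimming
`tr` removes a node `x` from a set when the part of the set below `x` satisfies one of the
conditions carried by `x`, provided that the conditions of `x` are valid: the `j`-th one is false at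
the empty set and has probability at most `2^{-j}` for all random subsets of members of `TT j`.
-/

set_option autoImplicit false
open Set MeasureTheory

namespace Pool.Agent.Lib.P2cbQ

open scoped Classical in
/-- The weight of an index. -/
noncomputable def cc (x : Gam) : ℝ := if x ∈ SS then 2 else 1

/-- The probability of an index. -/
noncomputable def pp (x : Gam) : ℝ := 1 / (2 * cc x)

lemma cc_pos (x : Gam) : 1 ≤ cc x := by unfold cc; split_ifs <;> norm_num

lemma cc_le (x : Gam) : cc x ≤ 2 := by unfold cc; split_ifs <;> norm_num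

lemma cc_mul_pp (x : Gam) : cc x * pp x = 1 / 2 := by
  have := cc_pos x
  unfold pp
  field_simp

lemma pp_pos (x : Gam) : 0 < pp x := by
  have := cc_pos x
  unfold pp
  positivity

lemma pp_lt (x : Gam) : pp x < 1 := by
  have := cc_pos x
  unfold pp
  rw [div_lt_one (by positivity)]
  linarith

/-- The law of one bit. -/
noncomputable def bern (x : Gam) : Measure Bool :=
  ENNReal.ofReal (pp x) • Measure.dirac true + ENNReal.ofReal (1 - pp x) • Measure.dirac false

instance (x : Gam) : IsProbabilityMeasure (bern x) := by
  constructor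
  unfold bern
  simp only [Measure.coe_add, Measure.coe_smul, Pi.add_apply, Pi.smul_apply, measure_univ,
    smul_eq_mul, mul_one]
  rw [← ENNReal.ofReal_add (pp_pos x).le (by linarith [pp_lt x])]
  simp

/-- The law of the random set. -/
noncomputable def mu : Measure (Gam → Bool) := Measure.infinitePi bern

instance : IsProbabilityMeasure mu := by unfold mu; infer_instance

/-- Lower sets of the index set, for the order given by `loc`. -/
def Low (D : Set Gam) : Prop := ∀ x ∈ D, ∀ y, loc y ≤ loc x → y ∈ D

/-- Symmetric differences of `k` lower sets. -/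
def TT : ℕ → Set (Set Gam)
  | 0 => {∅}
  | k + 1 => {A | ∃ T ∈ TT k, ∃ D, Low D ∧ A = symmDiff T D}

open scoped Classical in
/-- The part of a set of indices in `T`. -/
noncomputable def cut (R : Gam → Bool) (T : Set Gam) : Gam → Bool := fun x => R x && decide (x ∈ T)

/-- Validity of conditions, where `t j i` is the bit number `i` of the condition number `j`, as a
function of the random set. -/
def Valid (pat : ℕ → Pat) (t : ℕ → ℕ → (Gam → Bool) → Bool) : Prop :=
  ∀ j, ¬ ev (pat j) (fun _ => false) ∧
    ∀ T ∈ TT j, mu {R | ev (pat j) (fun i => t j i (cut R T))} ≤ ENNReal.ofReal ((1 / 2) ^ j)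

open scoped Classical in
/-- The recursive trimming. -/
noncomputable def tr : Gam → (Gam → Bool) → Bool
  | Gam.base => fun R => R Gam.base
  | Gam.node pat z Y => fun R => R (Gam.node pat z Y) &&
      decide (Valid pat (fun j i => tr (Y j i)) → ∀ j, ¬ ev (pat j) (fun i => tr (Y j i) R))

/-- The trimmed set. -/
noncomputable def TR (R : Gam → Bool) : Gam → Bool := fun x => tr x R

/-- The compact space, as a subset of the cube: the sets each finite part of which has positive
probability, for some member of some `TT k`. -/
def KK : Set (Gam → Bool) :=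
  {a | ∀ H : Finset Gam, ∃ k, ∃ T ∈ TT k, mu {R | ∀ y ∈ H, TR (cut R T) y = a y} ≠ 0}

/-- The compact space. -/
abbrev Kc : Type := {a : Gam → Bool // a ∈ KK}

lemma tr_base (R : Gam → Bool) : tr Gam.base R = R Gam.base := by rw [tr]

lemma tr_node (pat : ℕ → Pat) (z : ℝ) (Y : ℕ → ℕ → Gam) (R : Gam → Bool) :
    tr (Gam.node pat z Y) R = true ↔ R (Gam.node pat z Y) = true ∧
      (Valid pat (fun j i => tr (Y j i)) → ∀ j, ¬ ev (pat j) (fun i => tr (Y j i) R)) := by
  rw [tr]
  simp

/-- Trimming gives smaller sets. -/
lemma tr_le {x : Gam} {R : Gam → Bool} (h : tr x R = true) : R x = true := by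
  cases x with
  | base => rwa [tr_base] at h
  | node pat z Y => exact ((tr_node pat z Y R).1 h).1

lemma cut_eq_true {R : Gam → Bool} {T : Set Gam} {x : Gam} :
    cut R T x = true ↔ R x = true ∧ x ∈ T := by
  unfold cut
  simp

lemma ev_congr {q : Pat} {b b' : ℕ → Bool} (h : ∀ i < q.1, b i = b' i) : ev q b ↔ ev q b' := by
  unfold ev
  have : (Finset.range q.1).filter (fun i => b i = true) =
      (Finset.range q.1).filter (fun i => b' i = true) := by
    apply Finset.filter_congr
    intro i hi
    rw [h i (Finset.mem_range.1 hi)]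
  rw [this]

/-! ### Symmetric differences of lower sets -/

lemma low_empty : Low ∅ := fun x hx => absurd hx (Set.notMem_empty x)

lemma TT_succ {k : ℕ} {T : Set Gam} (hT : T ∈ TT k) : T ∈ TT (k + 1) :=
  ⟨T, hT, ∅, low_empty, (symmDiff_bot T).symm⟩

lemma TT_mono {k l : ℕ} (h : k ≤ l) : TT k ⊆ TT l := by
  induction l, h using Nat.le_induction with
  | base => exact subset_rfl
  | succ n _ ih => exact fun T hT => TT_succ (ih hT)

lemma TT_symmDiff {k : ℕ} {T D : Set Gam} (hT : T ∈ TT k) (hD : Low D) :
    symmDiff T D ∈ TT (k + 1) := ⟨T, hT, D, hD, rfl⟩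

lemma singleton_eq (x : Gam) :
    ({x} : Set Gam) = symmDiff {y | loc y ≤ loc x} {y | loc y < loc x} := by
  ext y
  rw [Set.mem_symmDiff, Set.mem_singleton_iff]
  simp only [Set.mem_ofPred_eq]
  constructor
  · rintro rfl
    exact Or.inl ⟨le_rfl, lt_irrefl _⟩
  · rintro (⟨h1, h2⟩ | ⟨h1, h2⟩)
    · exact loc_injective (le_antisymm h1 (not_lt.1 h2))
    · exact absurd h1.le h2

lemma low_le (r : ℝ) : Low {y | loc y ≤ r} := fun _ hx _ hy => hy.trans hx

lemma low_lt (r : ℝ) : Low {y | loc y < r} := fun _ hx _ hy => lt_of_le_of_lt hy hx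

/-- Adding or removing one point. -/
lemma TT_point {k : ℕ} {T : Set Gam} (hT : T ∈ TT k) (x : Gam) :
    symmDiff T {x} ∈ TT (k + 2) := by
  rw [singleton_eq, ← symmDiff_assoc]
  exact TT_symmDiff (TT_symmDiff hT (low_le _)) (low_lt _)

lemma TT_diff {k : ℕ} {T : Set Gam} (hT : T ∈ TT k) (x : Gam) : T \ {x} ∈ TT (k + 2) := by
  by_cases hx : x ∈ T
  · have h1 : T \ {x} = symmDiff T {x} := by
      ext y
      rw [Set.mem_symmDiff, Set.mem_sdiff, Set.mem_singleton_iff]
      constructor
      · exact fun h => Or.inl h
      · rintro (h | ⟨rfl, h2⟩)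
        · exact h
        · exact absurd hx h2
    rw [h1]
    exact TT_point hT x
  · rw [Set.sdiff_singleton_eq_self hx]
    exact TT_mono (by omega) hT

lemma singleton_mem_TT (x : Gam) : ({x} : Set Gam) ∈ TT 2 := by
  have h := TT_point (k := 0) (T := ∅) rfl x
  have h2 : symmDiff (∅ : Set Gam) {x} = {x} := bot_symmDiff _
  rwa [h2] at h

lemma empty_mem_TT (k : ℕ) : (∅ : Set Gam) ∈ TT k := TT_mono (Nat.zero_le k) rfl

end Pool.Agent.Lib.P2cbQ
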