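import Mathlib

/-!
# A countable separating set of functionals makes the dual weak-star separable
-/

set_option autoImplicit false
open Set Topology

namespace Pool.Agent.Lib.P2cbQ

/-- Interpolation on finite sets by the span of a separating set of functionals. -/
lemma exists_interp {X : Type} [NormedAddCommGroup X] [NormedSpace ℝ X] (N : Set (X →L[ℝ] ℝ))
    (hN : ∀ f : X, (∀ φ ∈ N, φ f = 0) → f = 0) (φ₀ : X →L[ℝ] ℝ) (F : Finset X) :
    ∃ ψ ∈ Submodule.span ℝ N, ∀ f ∈ F, ψ f = φ₀ f := by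
  classical
  let E : (X →L[ℝ] ℝ) →ₗ[ℝ] (F → ℝ) :=
    { toFun := fun ψ f => ψ f.1
      map_add' := fun _ _ => rfl
      map_smul' := fun _ _ => rfl }
  by_contra hcon
  have h1 : E φ₀ ∉ (Submodule.span ℝ N).map E := by
    rintro ⟨ψ, hψ, h⟩
    exact hcon ⟨ψ, hψ, fun f hf => congrFun h ⟨f, hf⟩⟩
  obtain ⟨l, hl1, hl2⟩ := Submodule.exists_le_ker_of_notMem h1
  let x : X := ∑ f : F, l (Pi.single f 1) • f.1
  have hlv : ∀ v : F → ℝ, l v = ∑ f : F, l (Pi.single f 1) * v f := by
    intro v
    conv_lhs => rw [← Finset.univ_sum_single v]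
    rw [map_sum]
    refine Finset.sum_congr rfl fun f _ => ?_
    have : Pi.single f (v f) = v f • (Pi.single f (1 : ℝ) : F → ℝ) := by
      rw [← Pi.single_smul]
      simp
    rw [this, map_smul, smul_eq_mul, mul_comm]
  have hx : ∀ ψ : X →L[ℝ] ℝ, ψ x = l (E ψ) := by
    intro ψ
    rw [hlv, map_sum]
    refine Finset.sum_congr rfl fun f _ => ?_
    rw [map_smul, smul_eq_mul]
    rfl
  have hx0 : x = 0 := by
    apply hN
    intro φ hφ
    rw [hx]
    exact hl2 ⟨φ, Submodule.subset_span hφ, rfl⟩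
  apply hl1
  rw [← hx, hx0, map_zero]

/-- A countable separating set of functionals makes the dual weak-star separable. -/
theorem separable_weakDual {X : Type} [NormedAddCommGroup X] [NormedSpace ℝ X]
    (N : Set (X →L[ℝ] ℝ)) (hc : N.Countable) (hN : ∀ f : X, (∀ φ ∈ N, φ f = 0) → f = 0) :
    TopologicalSpace.SeparableSpace (WeakDual ℝ X) := by
  classical
  let N' : Set (WeakDual ℝ X) := (fun φ => StrongDual.toWeakDual φ) '' N
  have h1 : TopologicalSpace.IsSeparable (Submodule.span ℝ N' : Set (WeakDual ℝ X)) :=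
    (hc.image _).isSeparable.span
  have h2 : closure (Submodule.span ℝ N' : Set (WeakDual ℝ X)) = Set.univ := by
    rw [Set.eq_univ_iff_forall]
    intro φ₀
    have hind : IsInducing (fun (x : WeakDual ℝ X) (y : X) => x y) := ⟨rfl⟩
    rw [hind.closure_eq_preimage_closure_image, Set.mem_preimage, mem_closure_iff_nhds]
    intro t ht
    rw [nhds_pi, Filter.mem_pi] at ht
    obtain ⟨I, hI, u, hu, hsub⟩ := ht
    obtain ⟨ψ, hψ, hψ2⟩ := exists_interp N hN (WeakDual.toStrongDual φ₀) hI.toFinset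
    refine ⟨fun y => ψ y, ?_, ?_⟩
    · apply hsub
      intro i hi
      have h3 := hψ2 i (hI.mem_toFinset.2 hi)
      change ψ i ∈ u i
      rw [h3]
      exact mem_of_mem_nhds (hu i)
    · refine ⟨StrongDual.toWeakDual ψ, ?_, rfl⟩
      have h4 : Submodule.span ℝ N' = (Submodule.span ℝ N).map
          (StrongDual.toWeakDual : StrongDual ℝ X ≃ₗ[ℝ] WeakDual ℝ X).toLinearMap := by
        rw [Submodule.map_span]
        rfl
      rw [h4]
      exact ⟨ψ, hψ, rfl⟩
  rw [← TopologicalSpace.isSeparable_univ_iff, ← h2]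
  exact h1.closure

end Pool.Agent.Lib.P2cbQ
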