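import Pool.Agent.Lib.P2cbQ.Sep
import Pool.Agent.Lib.P2cbQ.WStar

/-!
# The functionals on `C(Kc)`; weak-star separability of the dual
-/

set_option autoImplicit false
open Set MeasureTheory

namespace Pool.Agent.Lib.P2cbQ

lemma isOpen_cyl (H : Finset Gam) (a : Gam → Bool) : IsOpen {b : Gam → Bool | ∀ y ∈ H, b y = a y} := by
  have : {b : Gam → Bool | ∀ y ∈ H, b y = a y} = ⋂ y ∈ H, {b : Gam → Bool | b y = a y} := by
    ext b; simp
  rw [this]
  apply isOpen_biInter_finset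
  intro x _
  exact (isOpen_discrete {c : Bool | c = a x}).preimage (f := fun b : Gam → Bool => b x)
    (continuous_apply x)

/-- Points outside of `KK` have null neighbourhoods. -/
lemma null_of_notMem {a : Gam → Bool} (ha : a ∉ KK) :
    ∃ H : Finset Gam, ∀ k, ∀ T ∈ TT k, mu {R | ∀ y ∈ H, TR (cut R T) y = a y} = 0 := by
  unfold KK at ha
  rw [Set.mem_ofPred_eq] at ha
  push Not at ha
  exact ha

lemma isClosed_KK : IsClosed KK := by
  rw [← isOpen_compl_iff, isOpen_iff_forall_mem_open]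
  intro a ha
  obtain ⟨H, hH⟩ := null_of_notMem ha
  refine ⟨{b | ∀ y ∈ H, b y = a y}, ?_, isOpen_cyl H a, fun y _ => rfl⟩
  intro b hb hbK
  obtain ⟨k, T, hT, hmu⟩ := hbK H
  apply hmu
  have h1 : {R | ∀ y ∈ H, TR (cut R T) y = b y} = {R | ∀ y ∈ H, TR (cut R T) y = a y} := by
    ext R
    exact forall₂_congr fun y hy => by rw [hb y hy]
  rw [h1]
  exact hH k T hT

instance : CompactSpace Kc := isCompact_iff_compactSpace.1 isClosed_KK.isCompact

/-- The integrals of continuous functions which are small on `KK` are small. -/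
lemma int_le (g : C(Gam → Bool, ℝ)) (c : ℝ) (hc : 0 ≤ c) (hg : ∀ a ∈ KK, |g a| ≤ c) {k : ℕ}
    {T : Set Gam} (hT : T ∈ TT k) : |∫ R, g (TR (cut R T)) ∂mu| ≤ c := by
  classical
  refine le_of_forall_pos_le_add fun ε hε => ?_
  have hcomp : IsCompact {a : Gam → Bool | c + ε ≤ |g a|} :=
    (isClosed_le continuous_const g.continuous.abs).isCompact
  have hnot : ∀ a ∈ {a : Gam → Bool | c + ε ≤ |g a|}, a ∉ KK := by
    intro a ha haK
    have := hg a haK
    have h2 : c + ε ≤ |g a| := ha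
    linarith
  choose! H hH using fun (a : Gam → Bool) (ha : a ∉ KK) => null_of_notMem ha
  obtain ⟨t, ht, hcov⟩ := hcomp.elim_nhds_subcover (fun a => {b | ∀ y ∈ H a, b y = a y})
    (fun a _ => (isOpen_cyl (H a) a).mem_nhds (fun y _ => rfl))
  have hnull : mu {R | c + ε ≤ |g (TR (cut R T))|} = 0 := by
    refine measure_mono_null (t := ⋃ a ∈ t, {R | ∀ y ∈ H a, TR (cut R T) y = a y}) ?_ ?_
    · intro R hR
      obtain ⟨a, hat, hab⟩ := Set.mem_iUnion₂.1 (hcov hR)
      exact Set.mem_iUnion₂.2 ⟨a, hat, hab⟩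
    · refine le_antisymm ((measure_biUnion_finset_le _ _).trans ?_) bot_le
      rw [Finset.sum_eq_zero fun a ha => hH a (hnot a (ht a ha)) k T hT]
  have hae : ∀ᵐ R ∂mu, ‖g (TR (cut R T))‖ ≤ c + ε := by
    rw [ae_iff]
    refine measure_mono_null ?_ hnull
    intro R hR
    rw [Set.mem_ofPred_eq, not_le, Real.norm_eq_abs] at hR
    exact hR.le
  have h1 := norm_integral_le_of_norm_le_const hae
  rw [Real.norm_eq_abs] at h1
  simpa [Measure.real] using h1

/-- A continuous extension to the cube. -/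
lemma exists_ext (f : C(Kc, ℝ)) : ∃ g : C(Gam → Bool, ℝ), ∀ a : Kc, g a.1 = f a := by
  obtain ⟨g, hg⟩ := ContinuousMap.exists_restrict_eq isClosed_KK f
  exact ⟨g, fun a => DFunLike.congr_fun hg a⟩

/-- The chosen extension. -/
noncomputable def ext (f : C(Kc, ℝ)) : C(Gam → Bool, ℝ) := (exists_ext f).choose

lemma ext_apply (f : C(Kc, ℝ)) (a : Kc) : ext f a.1 = f a := (exists_ext f).choose_spec a

/-- The integral of the extension. -/
noncomputable def Lf (T : Set Gam) (f : C(Kc, ℝ)) : ℝ := ∫ R, ext f (TR (cut R T)) ∂mu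

lemma int_congr (g g' : C(Gam → Bool, ℝ)) (h : ∀ a ∈ KK, g a = g' a) {k : ℕ}
    {T : Set Gam} (hT : T ∈ TT k) :
    ∫ R, g (TR (cut R T)) ∂mu = ∫ R, g' (TR (cut R T)) ∂mu := by
  have h1 := int_le (g - g') 0 le_rfl (fun a ha => by simp [h a ha]) hT
  have h2 : ∫ R, (g - g') (TR (cut R T)) ∂mu =
      ∫ R, g (TR (cut R T)) ∂mu - ∫ R, g' (TR (cut R T)) ∂mu := by
    rw [← integral_sub (integrable_gTR g T) (integrable_gTR g' T)]
    rfl
  rw [h2] at h1
  exact sub_eq_zero.1 (abs_eq_zero.1 (le_antisymm h1 (abs_nonneg _)))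

lemma Lf_add {k : ℕ} {T : Set Gam} (hT : T ∈ TT k) (f g : C(Kc, ℝ)) :
    Lf T (f + g) = Lf T f + Lf T g := by
  unfold Lf
  rw [← integral_add (integrable_gTR (ext f) T) (integrable_gTR (ext g) T)]
  refine int_congr (ext (f + g)) (ext f + ext g) (fun a ha => ?_) hT
  have h1 := ext_apply (f + g) ⟨a, ha⟩
  have h2 := ext_apply f ⟨a, ha⟩
  have h3 := ext_apply g ⟨a, ha⟩
  rw [ContinuousMap.add_apply] at h1 ⊢
  rw [h1, h2, h3]

lemma Lf_smul {k : ℕ} {T : Set Gam} (hT : T ∈ TT k) (c : ℝ) (f : C(Kc, ℝ)) :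
    Lf T (c • f) = c * Lf T f := by
  unfold Lf
  rw [← integral_const_mul]
  refine int_congr (ext (c • f)) (c • ext f) (fun a ha => ?_) hT
  have h1 := ext_apply (c • f) ⟨a, ha⟩
  have h2 := ext_apply f ⟨a, ha⟩
  rw [ContinuousMap.smul_apply] at h1 ⊢
  rw [h1, h2]

lemma Lf_le {k : ℕ} {T : Set Gam} (hT : T ∈ TT k) (f : C(Kc, ℝ)) : |Lf T f| ≤ ‖f‖ := by
  refine int_le (ext f) ‖f‖ (norm_nonneg _) (fun a ha => ?_) hT
  have h1 := ext_apply f ⟨a, ha⟩
  have h2 := f.norm_coe_le_norm ⟨a, ha⟩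
  rw [h1]
  rwa [Real.norm_eq_abs] at h2

/-- The functional. -/
noncomputable def Lfun (k : ℕ) (T : Set Gam) (hT : T ∈ TT k) : C(Kc, ℝ) →L[ℝ] ℝ :=
  LinearMap.mkContinuous
    { toFun := Lf T
      map_add' := Lf_add hT
      map_smul' := Lf_smul hT } 1 (fun f => by
        rw [one_mul, Real.norm_eq_abs]
        exact Lf_le hT f)

lemma Lfun_apply (k : ℕ) (T : Set Gam) (hT : T ∈ TT k) (f : C(Kc, ℝ)) :
    Lfun k T hT f = Lf T f := rfl

/-- The dual of `C(Kc)` is weak-star separable. -/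
theorem separable_dual : TopologicalSpace.SeparableSpace (WeakDual ℝ C(Kc, ℝ)) := by
  let N : Set (C(Kc, ℝ) →L[ℝ] ℝ) := ⋃ k : ℕ, {φ | ∃ T, ∃ hT : T ∈ RT k,
    φ = Lfun k T (RT_subset k hT)}
  refine separable_weakDual N ?_ ?_
  · refine Set.countable_iUnion fun k => ?_
    have h1 : {φ : C(Kc, ℝ) →L[ℝ] ℝ | ∃ T, ∃ hT : T ∈ RT k, φ = Lfun k T (RT_subset k hT)} =
        Set.range (fun T : RT k => Lfun k T.1 (RT_subset k T.2)) := by
      ext φ
      constructor
      · rintro ⟨T, hT, rfl⟩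
        exact ⟨⟨T, hT⟩, rfl⟩
      · rintro ⟨⟨T, hT⟩, rfl⟩
        exact ⟨T, hT, rfl⟩
    rw [h1]
    have := (RT_countable k).to_subtype
    exact Set.countable_range _
  · intro f hf
    have h1 : ∀ a ∈ KK, ext f a = 0 := by
      apply sep
      intro k T hT
      exact hf (Lfun k T (RT_subset k hT)) (Set.mem_iUnion.2 ⟨k, T, hT, rfl⟩)
    ext a
    rw [← ext_apply f a, h1 a.1 a.2]
    rfl

end Pool.Agent.Lib.P2cbQ
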