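import Pool.Agent.Lib.P2cbQ.Funct

/-!
# Greedy choice of conditions

For a sequence of functionals there are conditions `U j`, small for all members of `TT j`, such that
functions supported in a small set outside of the earlier `U i` have small values.
-/

set_option autoImplicit false
open Set MeasureTheory

namespace Pool.Agent.Lib.P2cbQ

/-- Conditions on finitely many coordinates. -/
def FinD (U : (Gam → Bool) → Prop) : Prop :=
  ∃ H : Finset Gam, ∀ a b : Gam → Bool, (∀ y ∈ H, a y = b y) → (U a ↔ U b)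

/-- Small conditions. -/
def Small (j : ℕ) (U : (Gam → Bool) → Prop) : Prop :=
  FinD U ∧ ¬ U (fun _ => false) ∧
    ∀ T ∈ TT j, mu {R | U (TR (cut R T))} ≤ ENNReal.ofReal ((1 / 2) ^ j)

lemma small_false (j : ℕ) : Small j (fun _ => False) := by
  refine ⟨⟨∅, fun _ _ _ => Iff.rfl⟩, not_false, fun T _ => ?_⟩
  have : {R : Gam → Bool | False} = ∅ := by ext; simp
  rw [this, measure_empty]
  exact zero_le

lemma FinD.and_not {U V : (Gam → Bool) → Prop} (hU : FinD U) (hV : FinD V) :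
    FinD (fun a => U a ∧ ¬ V a) := by
  classical
  obtain ⟨H, hH⟩ := hU
  obtain ⟨H', hH'⟩ := hV
  refine ⟨H ∪ H', fun a b h => ?_⟩
  beta_reduce
  rw [hH a b (fun y hy => h y (Finset.mem_union_left _ hy)),
    hH' a b (fun y hy => h y (Finset.mem_union_right _ hy))]

lemma FinD.or {U V : (Gam → Bool) → Prop} (hU : FinD U) (hV : FinD V) :
    FinD (fun a => U a ∨ V a) := by
  classical
  obtain ⟨H, hH⟩ := hU
  obtain ⟨H', hH'⟩ := hV
  refine ⟨H ∪ H', fun a b h => ?_⟩
  beta_reduce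
  rw [hH a b (fun y hy => h y (Finset.mem_union_left _ hy)),
    hH' a b (fun y hy => h y (Finset.mem_union_right _ hy))]

lemma FinD.isOpen {U : (Gam → Bool) → Prop} (hU : FinD U) : IsOpen {a | U a} := by
  obtain ⟨H, hH⟩ := hU
  rw [isOpen_iff_forall_mem_open]
  intro a ha
  exact ⟨{b | ∀ y ∈ H, b y = a y}, fun b hb => (hH b a hb).2 ha, isOpen_cyl H a, fun _ _ => rfl⟩

lemma FinD.isClopen {U : (Gam → Bool) → Prop} (hU : FinD U) : IsClopen {a : Kc | U a.1} := by
  have h1 : IsOpen {a : Kc | U a.1} := hU.isOpen.preimage continuous_subtype_val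
  have h2 : FinD (fun a => ¬ U a) := by
    obtain ⟨H, hH⟩ := hU
    exact ⟨H, fun a b h => not_congr (hH a b h)⟩
  have h3 : IsOpen {a : Kc | ¬ U a.1} := h2.isOpen.preimage continuous_subtype_val
  refine ⟨?_, h1⟩
  rw [← isOpen_compl_iff]
  exact h3

open scoped Classical in
/-- The indicator of a condition. -/
noncomputable def indC (U : (Gam → Bool) → Prop) : C(Kc, ℝ) :=
  if h : FinD U then
    ⟨fun a => if U a.1 then 1 else 0, Continuous.if (fun a ha => by
      rw [h.isClopen.frontier_eq] at ha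
      exact absurd ha (Set.notMem_empty _)) continuous_const continuous_const⟩
  else 0

open scoped Classical in
lemma indC_apply {U : (Gam → Bool) → Prop} (hU : FinD U) (a : Kc) :
    indC U a = if U a.1 then 1 else 0 := by
  unfold indC
  rw [dif_pos hU]
  rfl

lemma norm_indC_le (U : (Gam → Bool) → Prop) : ‖indC U‖ ≤ 1 := by
  classical
  rw [ContinuousMap.norm_le _ zero_le_one]
  intro a
  by_cases hU : FinD U
  · rw [indC_apply hU]
    split_ifs <;> simp
  · unfold indC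
    rw [dif_neg hU]
    simp

/-- The variation of a functional on a condition. -/
noncomputable def opN (φ : C(Kc, ℝ) →L[ℝ] ℝ) (U : (Gam → Bool) → Prop) : ℝ :=
  ‖φ.comp (ContinuousLinearMap.mul ℝ C(Kc, ℝ) (indC U))‖

lemma opN_nonneg (φ : C(Kc, ℝ) →L[ℝ] ℝ) (U : (Gam → Bool) → Prop) : 0 ≤ opN φ U := norm_nonneg _

lemma opN_le (φ : C(Kc, ℝ) →L[ℝ] ℝ) (U : (Gam → Bool) → Prop) : opN φ U ≤ ‖φ‖ := by
  unfold opN
  refine (ContinuousLinearMap.opNorm_comp_le _ _).trans ?_
  have h1 := ContinuousLinearMap.opNorm_mul_apply_le ℝ C(Kc, ℝ) (indC U)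
  exact mul_le_of_le_one_right (norm_nonneg _) (h1.trans (norm_indC_le U))

/-- Functions supported in a condition. -/
lemma abs_le_opN (φ : C(Kc, ℝ) →L[ℝ] ℝ) {U : (Gam → Bool) → Prop} (hU : FinD U) (f : C(Kc, ℝ))
    (hf : ‖f‖ ≤ 1) (hsupp : ∀ a : Kc, f a ≠ 0 → U a.1) : |φ f| ≤ opN φ U := by
  classical
  have h1 : f = indC U * f := by
    ext a
    rw [ContinuousMap.mul_apply, indC_apply hU]
    by_cases h : U a.1
    · rw [if_pos h, one_mul]
    · rw [if_neg h, zero_mul]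
      by_contra hne
      exact h (hsupp a hne)
  have h2 : φ f = (φ.comp (ContinuousLinearMap.mul ℝ C(Kc, ℝ) (indC U))) f := by
    conv_lhs => rw [h1]
    rfl
  rw [h2, ← Real.norm_eq_abs]
  refine (ContinuousLinearMap.le_opNorm _ _).trans ?_
  exact mul_le_of_le_one_right (norm_nonneg _) hf

/-- The variations on disjoint conditions. -/
lemma sum_opN_le (φ : C(Kc, ℝ) →L[ℝ] ℝ) (I : Finset ℕ) (V : ℕ → (Gam → Bool) → Prop)
    (hV : ∀ j ∈ I, FinD (V j)) (hdis : ∀ i ∈ I, ∀ j ∈ I, i ≠ j → ∀ a, V i a → ¬ V j a) :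
    ∑ j ∈ I, opN φ (V j) ≤ ‖φ‖ := by
  classical
  refine le_of_forall_pos_le_add fun ε hε => ?_
  set δ : ℝ := ε / (I.card + 1) with hδ
  have hδ0 : 0 < δ := by positivity
  have hex : ∀ j : ℕ, ∃ f : C(Kc, ℝ), ‖f‖ ≤ 1 ∧ opN φ (V j) - δ ≤ φ (indC (V j) * f) := by
    intro j
    have h1 : opN φ (V j) - δ < ‖φ.comp (ContinuousLinearMap.mul ℝ C(Kc, ℝ) (indC (V j)))‖ := by
      change opN φ (V j) - δ < opN φ (V j)
      linarith
    obtain ⟨x, hx1, hx2⟩ := ContinuousLinearMap.exists_lt_apply_of_lt_opNorm _ h1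
    have hx3 : opN φ (V j) - δ < |φ (indC (V j) * x)| := hx2
    rcases abs_cases (φ (indC (V j) * x)) with ⟨h2, -⟩ | ⟨h2, -⟩
    · exact ⟨x, hx1.le, by rw [← h2]; exact hx3.le⟩
    · refine ⟨-x, by rw [norm_neg]; exact hx1.le, ?_⟩
      rw [mul_neg, map_neg, ← h2]
      exact hx3.le
  choose f hf1 hf2 using hex
  let F : C(Kc, ℝ) := ∑ j ∈ I, indC (V j) * f j
  have hF : ‖F‖ ≤ 1 := by
    rw [ContinuousMap.norm_le _ zero_le_one]
    intro a
    have h1 : F a = ∑ j ∈ I, indC (V j) a * f j a := by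
      simp only [F, ContinuousMap.coe_sum, Finset.sum_apply, ContinuousMap.mul_apply]
    rw [h1]
    by_cases hex : ∃ i ∈ I, V i a.1
    · obtain ⟨i, hi, hia⟩ := hex
      rw [Finset.sum_eq_single i]
      · rw [indC_apply (hV i hi), if_pos hia, one_mul]
        exact ((f i).norm_coe_le_norm a).trans (hf1 i)
      · intro j hj hji
        rw [indC_apply (hV j hj), if_neg (hdis i hi j hj hji.symm a.1 hia), zero_mul]
      · intro h
        exact absurd hi h
    · rw [Finset.sum_eq_zero]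
      · simp
      · intro j hj
        rw [indC_apply (hV j hj), if_neg (fun h => hex ⟨j, hj, h⟩), zero_mul]
  have h2 : φ F ≤ ‖φ‖ := by
    have h3 := φ.le_opNorm F
    have h4 := le_abs_self (φ F)
    rw [Real.norm_eq_abs] at h3
    have h5 : ‖φ‖ * ‖F‖ ≤ ‖φ‖ * 1 := mul_le_mul_of_nonneg_left hF (norm_nonneg φ)
    linarith
  have h3 : φ F = ∑ j ∈ I, φ (indC (V j) * f j) := map_sum φ _ _
  have h4 : ∑ j ∈ I, (opN φ (V j) - δ) ≤ φ F := by
    rw [h3]
    exact Finset.sum_le_sum fun j _ => hf2 j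
  rw [Finset.sum_sub_distrib, Finset.sum_const, nsmul_eq_mul] at h4
  have h5 : (I.card : ℝ) * δ ≤ ε := by
    rw [hδ]
    have h6 : (0 : ℝ) ≤ I.card := by positivity
    rw [mul_div_assoc', div_le_iff₀ (by positivity)]
    nlinarith
  linarith

/-- A nearly optimal condition. -/
lemma exists_pick (φ : C(Kc, ℝ) →L[ℝ] ℝ) (j : ℕ) (A : (Gam → Bool) → Prop) :
    ∃ U, Small j U ∧ ∀ W, Small j W →
      opN φ (fun a => W a ∧ ¬ A a) ≤ 2 * opN φ (fun a => U a ∧ ¬ A a) := by
  let S : Set ℝ := {r | ∃ W, Small j W ∧ r = opN φ (fun a => W a ∧ ¬ A a)}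
  have hbdd : BddAbove S := by
    refine ⟨‖φ‖, ?_⟩
    rintro r ⟨W, -, rfl⟩
    exact opN_le φ _
  have hne : S.Nonempty := ⟨_, _, small_false j, rfl⟩
  rcases le_or_gt (sSup S) 0 with h0 | h0
  · refine ⟨_, small_false j, fun W hW => ?_⟩
    have h1 := le_csSup hbdd ⟨W, hW, rfl⟩
    have h2 := opN_nonneg φ (fun a => False ∧ ¬ A a)
    linarith
  · obtain ⟨r, ⟨U, hU, rfl⟩, hr⟩ := exists_lt_of_lt_csSup hne (by linarith : sSup S / 2 < sSup S)
    refine ⟨U, hU, fun W hW => ?_⟩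
    have h1 := le_csSup hbdd ⟨W, hW, rfl⟩
    linarith

/-- Greedy choice. -/
theorem greedy (φ : ℕ → C(Kc, ℝ) →L[ℝ] ℝ) :
    ∃ U : ℕ → (Gam → Bool) → Prop, (∀ j, Small j (U j)) ∧
      ∀ m, ∀ ε : ℝ, 0 < ε → ∃ j, ∀ W, Small j W → ∀ f : C(Kc, ℝ), ‖f‖ ≤ 1 →
        (∀ a : Kc, f a ≠ 0 → W a.1 ∧ ∀ i < j, ¬ U i a.1) → |φ m f| ≤ ε := by
  classical
  choose P hP1 hP2 using fun (j : ℕ) (A : (Gam → Bool) → Prop) => exists_pick (φ j.unpair.1) j A
  let A : ℕ → (Gam → Bool) → Prop := fun j =>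
    Nat.rec (fun _ => False) (fun j A a => A a ∨ P j A a) j
  have hA0 : A 0 = fun _ => False := rfl
  have hAs : ∀ j, A (j + 1) = fun a => A j a ∨ P j (A j) a := fun j => rfl
  let U : ℕ → (Gam → Bool) → Prop := fun j => P j (A j)
  have hU : ∀ j, Small j (U j) := fun j => hP1 j (A j)
  have hAiff : ∀ j a, A j a ↔ ∃ i < j, U i a := by
    intro j a
    induction j with
    | zero => simp [hA0]
    | succ j ih =>
      rw [hAs]
      beta_reduce
      rw [ih]
      constructor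
      · rintro (⟨i, hi, h⟩ | h)
        · exact ⟨i, by omega, h⟩
        · exact ⟨j, by omega, h⟩
      · rintro ⟨i, hi, h⟩
        rcases Nat.lt_succ_iff_lt_or_eq.1 hi with h1 | h1
        · exact Or.inl ⟨i, h1, h⟩
        · subst h1
          exact Or.inr h
  have hAF : ∀ j, FinD (A j) := by
    intro j
    induction j with
    | zero => exact (small_false 0).1
    | succ j ih =>
      rw [hAs]
      exact ih.or (hU j).1
  let V : ℕ → (Gam → Bool) → Prop := fun j a => U j a ∧ ¬ A j a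
  have hVF : ∀ j, FinD (V j) := fun j => (hU j).1.and_not (hAF j)
  have hVd : ∀ i j, i ≠ j → ∀ a, V i a → ¬ V j a := by
    intro i j hij a hi hj
    rcases lt_or_gt_of_ne hij with h | h
    · exact hj.2 ((hAiff j a).2 ⟨i, h, hi.1⟩)
    · exact hi.2 ((hAiff i a).2 ⟨j, h, hj.1⟩)
  refine ⟨U, hU, fun m ε hε => ?_⟩
  -- a good stage for the functional number `m`
  obtain ⟨n, hn⟩ := exists_nat_gt (2 * ‖φ m‖ / ε)
  have hex : ∃ i < n + 1, opN (φ m) (V (Nat.pair m i)) ≤ ε / 2 := by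
    by_contra hcon
    push Not at hcon
    have h1 := sum_opN_le (φ m) ((Finset.range (n + 1)).image (fun i => Nat.pair m i)) V
      (fun j _ => hVF j) (fun i _ j _ hij => hVd i j hij)
    rw [Finset.sum_image (by
      intro i _ i' _ h
      exact (Nat.pair_eq_pair.1 h).2)] at h1
    have h2 : ∑ _i ∈ Finset.range (n + 1), ε / 2 ≤
        ∑ i ∈ Finset.range (n + 1), opN (φ m) (V (Nat.pair m i)) :=
      Finset.sum_le_sum fun i hi => (hcon i (Finset.mem_range.1 hi)).le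
    rw [Finset.sum_const, Finset.card_range, nsmul_eq_mul] at h2
    rw [div_lt_iff₀ hε] at hn
    push_cast at h2
    nlinarith
  obtain ⟨i, -, hi⟩ := hex
  refine ⟨Nat.pair m i, fun W hW f hf hsupp => ?_⟩
  have h1 := hP2 (Nat.pair m i) (A (Nat.pair m i)) W hW
  rw [Nat.unpair_pair] at h1
  have h2 := abs_le_opN (φ m) (hW.1.and_not (hAF (Nat.pair m i))) f hf (fun a ha => by
    obtain ⟨h3, h4⟩ := hsupp a ha
    refine ⟨h3, fun h5 => ?_⟩
    obtain ⟨i', hi', h6⟩ := (hAiff _ _).1 h5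
    exact h4 i' hi' h6)
  have h3 : opN (φ m) (fun a => P (Nat.pair m i) (A (Nat.pair m i)) a ∧
      ¬ A (Nat.pair m i) a) ≤ ε / 2 := hi
  exact h2.trans (h1.trans (by simp only at h3 ⊢; linarith))

end Pool.Agent.Lib.P2cbQ
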