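import Mathlib

/-!
# Two measurability lemmas

Weak Baire sets are determined by countably many functionals in a Borel way; functions with bounded
alternation along an injection into the reals are Borel functions of this injection.
-/

set_option autoImplicit false
open Set

namespace Pool.Agent.Lib.P2cbQ

/-- The `σ`-algebra generated by the continuous linear functionals. -/
@[reducible] def baire (X : Type) [NormedAddCommGroup X] [NormedSpace ℝ X] : MeasurableSpace X :=
  ⨆ φ : X →L[ℝ] ℝ, MeasurableSpace.comap (fun x => φ x) inferInstance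

theorem baire_repr {X : Type} [NormedAddCommGroup X] [NormedSpace ℝ X] (A : Set X)
    (hA : @MeasurableSet X (baire X) A) :
    ∃ (φ : ℕ → (X →L[ℝ] ℝ)) (B : Set (ℕ → ℝ)), MeasurableSet B ∧
      A = {x | (fun n => φ n x) ∈ B} := by
  have hA' := MeasurableSpace.measurableSet_iSup.1 hA
  induction hA' with
  | basic A h =>
    obtain ⟨φ, t, ht, rfl⟩ := h
    refine ⟨fun _ => φ, {v | v 0 ∈ t}, measurable_pi_apply 0 ht, rfl⟩
  | empty => exact ⟨fun _ => 0, ∅, MeasurableSet.empty, rfl⟩
  | compl A _ ih =>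
    obtain ⟨φ, B, hB, h⟩ := ih (by
      have := @MeasurableSet.compl X _ (baire X) hA
      rwa [compl_compl] at this)
    refine ⟨φ, Bᶜ, hB.compl, ?_⟩
    rw [h]
    rfl
  | iUnion f hf ih =>
    have hf' : ∀ n, @MeasurableSet X (baire X) (f n) := fun n =>
      MeasurableSpace.measurableSet_iSup.2 (hf n)
    choose φ B hB h using fun n => ih n (hf' n)
    refine ⟨fun m => φ m.unpair.1 m.unpair.2,
      ⋃ k : ℕ, {v | (fun n => v (Nat.pair k n)) ∈ B k}, ?_, ?_⟩
    · refine MeasurableSet.iUnion fun k => ?_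
      have h1 : Measurable (fun (v : ℕ → ℝ) (n : ℕ) => v (Nat.pair k n)) :=
        measurable_pi_iff.2 fun n => measurable_pi_apply _
      exact h1 (hB k)
    · ext x
      simp only [Set.mem_iUnion, Set.mem_ofPred_eq, Nat.unpair_pair]
      refine exists_congr fun k => ?_
      conv_lhs => rw [h k]
      rfl

section Alternation

variable (l g : ℝ → ℝ) (a b : ℝ)

/-- Alternating chains of length `n` with locations at most `t`. -/
def Chn (n : ℕ) (t : ℝ) : Prop :=
  ∃ s : ℕ → ℝ, (∀ i, i + 1 < n → l (s i) < l (s (i + 1))) ∧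
    (∀ i < n, (Even i → b ≤ g (s i)) ∧ (¬ Even i → g (s i) ≤ a)) ∧ ∀ i < n, l (s i) ≤ t

lemma chn_zero (t : ℝ) : Chn l g a b 0 t :=
  ⟨fun _ => 0, fun i hi => absurd hi (by omega), fun i hi => absurd hi (by omega),
    fun i hi => absurd hi (by omega)⟩

lemma chn_mono {n : ℕ} {t t' : ℝ} (h : t ≤ t') (hc : Chn l g a b n t) : Chn l g a b n t' := by
  obtain ⟨s, h1, h2, h3⟩ := hc
  exact ⟨s, h1, h2, fun i hi => (h3 i hi).trans h⟩

lemma lt_of_steps {l : ℝ → ℝ} {s : ℕ → ℝ} {n : ℕ}
    (h : ∀ i, i + 1 < n → l (s i) < l (s (i + 1))) : ∀ i j, i < j → j < n → l (s i) < l (s j) := by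
  intro i j hij
  induction j, hij using Nat.le_induction with
  | base => exact fun hj => h i hj
  | succ j _ ih => exact fun hj => (ih (by omega)).trans (h j hj)

/-- Extension of a chain by one point. -/
lemma chn_succ (hl : Function.Injective l) (hab : a < b) {n : ℕ} {x : ℝ}
    (hc : Chn l g a b n (l x)) (hx : (Even n → b ≤ g x) ∧ (¬ Even n → g x ≤ a)) :
    Chn l g a b (n + 1) (l x) := by
  obtain ⟨s, h1, h2, h3⟩ := hc
  refine ⟨fun i => if i < n then s i else x, ?_, ?_, ?_⟩
  · intro i hi
    have hin : i < n := by omega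
    simp only [hin, if_true]
    by_cases h4 : i + 1 < n
    · simp only [h4, if_true]
      exact h1 i h4
    · simp only [h4, if_false]
      refine lt_of_le_of_ne (h3 i hin) fun h5 => ?_
      have h6 : s i = x := hl h5
      have hni : n = i + 1 := by omega
      subst hni
      rcases Nat.even_or_odd i with h7 | h7
      · have e1 := (h2 i hin).1 h7
        have e2 := hx.2 (by rw [Nat.even_add_one]; exact not_not.2 h7)
        rw [h6] at e1
        linarith
      · have h8 : ¬ Even i := Nat.not_even_iff_odd.2 h7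
        have e1 := (h2 i hin).2 h8
        have e2 := hx.1 (Nat.even_add_one.2 h8)
        rw [h6] at e1
        linarith
  · intro i hi
    by_cases hin : i < n
    · simp only [hin, if_true]
      exact h2 i hin
    · have hin' : i = n := by omega
      subst hin'
      simp only [lt_irrefl, if_false]
      exact hx
  · intro i hi
    by_cases hin : i < n
    · simp only [hin, if_true]
      exact h3 i hin
    · simp only [hin, if_false]
      exact le_rfl

/-- Separation by a Borel set of locations. -/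
lemma exists_sep (hl : Function.Injective l) (hab : a < b) (N : ℕ)
    (hN : ¬ ∃ z z' : ℕ → ℝ, (∀ i < N, l (z i) < l (z' i)) ∧
      (∀ i j, i < j → j < N → l (z' i) < l (z j)) ∧
      (∀ i < N, b ≤ g (z i)) ∧ ∀ i < N, g (z' i) ≤ a) :
    ∃ B : Set ℝ, MeasurableSet B ∧ (∀ x, b ≤ g x → l x ∈ B) ∧ ∀ x, g x ≤ a → l x ∉ B := by
  classical
  have hbound : ∀ n t, 2 * N ≤ n → ¬ Chn l g a b n t := by
    rintro n t hn ⟨s, h1, h2, -⟩
    apply hN
    have h4 := lt_of_steps h1
    refine ⟨fun i => s (2 * i), fun i => s (2 * i + 1), fun i hi => h4 _ _ (by omega) (by omega),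
      fun i j hij hj => h4 _ _ (by omega) (by omega), fun i hi => (h2 (2 * i) (by omega)).1 ?_,
      fun i hi => (h2 (2 * i + 1) (by omega)).2 ?_⟩
    · exact even_two_mul i
    · rw [Nat.even_add_one]
      exact not_not.2 (even_two_mul i)
  let n : ℝ → ℕ := fun t => Nat.findGreatest (fun m => Chn l g a b m t) (2 * N)
  have hmono : Monotone n := by
    intro t t' h
    exact Nat.findGreatest_mono_left (fun m hm => chn_mono l g a b h hm) _
  have hspec : ∀ t, Chn l g a b (n t) t := fun t =>
    Nat.findGreatest_spec (P := fun m => Chn l g a b m t) (Nat.zero_le _) (chn_zero l g a b t)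
  have hmax : ∀ t, ¬ Chn l g a b (n t + 1) t := by
    intro t h
    have h1 : n t + 1 ≤ 2 * N := by
      by_contra hcon
      exact hbound _ t (by omega) h
    have h2 : n t + 1 ≤ n t := Nat.le_findGreatest (P := fun m => Chn l g a b m t) h1 h
    omega
  refine ⟨{t | ¬ Even (n t)}, ?_, ?_, ?_⟩
  · have h1 : Measurable n := hmono.measurable
    exact h1 (MeasurableSet.of_discrete (s := {m : ℕ | ¬ Even m}))
  · intro x hx
    rw [Set.mem_ofPred_eq]
    intro he
    exact hmax (l x) (chn_succ l g a b hl hab (hspec (l x)) ⟨fun _ => hx, fun h => absurd he h⟩)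
  · intro x hx
    rw [Set.mem_ofPred_eq, not_not]
    by_contra he
    exact hmax (l x) (chn_succ l g a b hl hab (hspec (l x)) ⟨fun h => absurd h he, fun _ => hx⟩)

end Alternation

lemma meas_of_Ioi {α : Type} [MeasurableSpace α] (g : α → ℝ)
    (h : ∀ c, MeasurableSet (g ⁻¹' Set.Ioi c)) : Measurable g := measurable_of_Ioi h

/-- Functions with bounded alternation are measurable. -/
theorem reg_measurable (l g : ℝ → ℝ) (hl : Function.Injective l)
    (H : ∀ a b : ℝ, a < b → ∃ N : ℕ, ¬ ∃ z z' : ℕ → ℝ, (∀ i < N, l (z i) < l (z' i)) ∧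
      (∀ i j, i < j → j < N → l (z' i) < l (z j)) ∧
      (∀ i < N, b ≤ g (z i)) ∧ ∀ i < N, g (z' i) ≤ a) :
    @Measurable ℝ ℝ (MeasurableSpace.comap l (borel ℝ)) inferInstance g := by
  have hsep : ∀ c : ℝ, ∀ q : ℚ, ∃ B : Set ℝ, MeasurableSet B ∧
      (c < q → (∀ x, (q : ℝ) ≤ g x → l x ∈ B) ∧ ∀ x, g x ≤ c → l x ∉ B) := by
    intro c q
    by_cases hcq : c < q
    · obtain ⟨N, hN⟩ := H c q hcq
      obtain ⟨B, hB, h1, h2⟩ := exists_sep l g c q hl hcq N hN
      exact ⟨B, hB, fun _ => ⟨h1, h2⟩⟩
    · exact ⟨∅, MeasurableSet.empty, fun h => absurd h hcq⟩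
  choose B hB hB2 using hsep
  refine @meas_of_Ioi ℝ (MeasurableSpace.comap l (borel ℝ)) g fun c => ?_
  have h1 : g ⁻¹' Set.Ioi c = l ⁻¹' (⋃ q : ℚ, if c < q then B c q else ∅) := by
    ext x
    simp only [Set.mem_preimage, Set.mem_Ioi, Set.mem_iUnion]
    constructor
    · intro h
      obtain ⟨q, hq1, hq2⟩ := exists_rat_btwn h
      refine ⟨q, ?_⟩
      rw [if_pos hq1]
      exact (hB2 c q hq1).1 x hq2.le
    · rintro ⟨q, hq⟩
      by_cases hcq : c < q
      · rw [if_pos hcq] at hq
        by_contra hcon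
        exact (hB2 c q hcq).2 x (not_lt.1 hcon) hq
      · rw [if_neg hcq] at hq
        exact absurd hq (Set.notMem_empty _)
  rw [h1]
  refine ⟨⋃ q : ℚ, if c < q then B c q else ∅, ?_, rfl⟩
  have h2 : MeasurableSet (⋃ q : ℚ, if c < q then B c q else ∅) := by
    refine MeasurableSet.iUnion fun q => ?_
    by_cases hcq : c < q
    · rw [if_pos hcq]; exact hB c q
    · rw [if_neg hcq]; exact MeasurableSet.empty
  exact h2

end Pool.Agent.Lib.P2cbQ
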