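import Pool.Agent.Lib.P2cbQ.Greedy
import Pool.Agent.Lib.P2cbQ.Alt
import Pool.Agent.Lib.P2cbQ.Repr

/-!
# The supremum norm is not measurable
-/

set_option autoImplicit false
open Set MeasureTheory

namespace Pool.Agent.Lib.P2cbQ

/-! ### Single points -/

lemma node_ne_child (x : Gam) : ∀ (pat : ℕ → Pat) (z : ℝ) (Y : ℕ → ℕ → Gam) (j i : ℕ),
    x = Gam.node pat z Y → Y j i ≠ x := by
  induction x with
  | base =>
    intro pat z Y j i h
    exact absurd h (by simp)
  | node pat z Y ih =>
    intro pat' z' Y' j i h hji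
    rw [Gam.node.injEq] at h
    obtain ⟨rfl, rfl, rfl⟩ := h
    exact ih j i pat z Y j i hji rfl

open scoped Classical in
/-- The set with one element. -/
noncomputable def pt (x : Gam) : Gam → Bool := fun y => decide (y = x)

lemma mu_coord_ne (x : Gam) : mu {R | R x = true} ≠ 0 := by
  classical
  intro h0
  have h1 := integral_resample x (fun R => bit (R x)) (measurable_bit x) 1 (fun R => bit_le _)
  simp only [Function.update_self, bit] at h1
  have h2 : ∫ R, (if R x = true then (1 : ℝ) else 0) ∂mu = 0 := by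
    apply integral_eq_zero_of_ae
    have h3 : ∀ᵐ R ∂mu, ¬ (R x = true) := by
      rw [ae_iff]
      simpa using h0
    filter_upwards [h3] with R hR
    simp only [hR]
    rfl
  rw [h2] at h1
  have h4 := pp_pos x
  simp at h1
  linarith

lemma TR_single (x : Gam) (R : Gam → Bool) (hR : R x = true) : TR (cut R {x}) = pt x := by
  classical
  have hoff : ∀ y, y ≠ x → tr y (cut R {x}) = false := by
    intro y hy
    by_contra hne
    have h1 : tr y (cut R {x}) = true := by
      cases h : tr y (cut R {x})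
      · exact absurd h hne
      · rfl
    exact hy (cut_eq_true.1 (tr_le h1)).2
  have hcut : cut R {x} x = true := cut_eq_true.2 ⟨hR, rfl⟩
  funext y
  unfold TR pt
  by_cases hy : y = x
  · subst hy
    simp only [decide_true]
    cases hy2 : y with
    | base =>
      rw [← hy2, hy2, tr_base, ← hy2]
      exact hcut
    | node pat z Y =>
      rw [tr_node, ← hy2]
      refine ⟨hcut, fun hv j => ?_⟩
      have h1 : (fun i => tr (Y j i) (cut R {y})) = fun _ => false := by
        funext i
        exact hoff _ (node_ne_child y pat z Y j i hy2)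
      rw [h1]
      exact (hv j).1
  · rw [hoff y hy]
    simp [hy]

lemma pt_mem (x : Gam) : pt x ∈ KK := by
  intro H
  refine ⟨2, {x}, singleton_mem_TT x, fun h0 => mu_coord_ne x (measure_mono_null ?_ h0)⟩
  intro R hR y _
  rw [TR_single x R hR]

/-! ### The coordinate functions -/

/-- The weighted coordinate function. -/
noncomputable def fx (x : Gam) : C(Kc, ℝ) :=
  ⟨fun a => cc x * bit (a.1 x), continuous_const.mul
    ((continuous_of_discreteTopology (f := bit)).comp
      ((continuous_apply x).comp continuous_subtype_val))⟩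

lemma fx_apply (x : Gam) (a : Kc) : fx x a = cc x * bit (a.1 x) := rfl

lemma norm_fx (x : Gam) : ‖fx x‖ = cc x := by
  have hc := cc_pos x
  apply le_antisymm
  · rw [ContinuousMap.norm_le _ (by linarith)]
    intro a
    rw [fx_apply, Real.norm_eq_abs, abs_mul, abs_of_pos (by linarith)]
    exact mul_le_of_le_one_right (by linarith) (bit_le _)
  · have h1 := (fx x).norm_coe_le_norm ⟨pt x, pt_mem x⟩
    rw [fx_apply, Real.norm_eq_abs] at h1
    have h2 : bit (pt x x) = 1 := by simp [bit, pt]
    change |cc x * bit (pt x x)| ≤ ‖fx x‖ at h1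
    rw [h2, mul_one, abs_of_pos (by linarith)] at h1
    exact h1

/-- Points of the compact space satisfying a condition of a valid node do not contain the node. -/
lemma kill {pat : ℕ → Pat} {Y : ℕ → ℕ → Gam} (hv : Valid pat (fun j i => tr (Y j i))) (z : ℝ)
    (j : ℕ) (a : Kc) (h : ev (pat j) (fun i => a.1 (Y j i))) : a.1 (Gam.node pat z Y) = false := by
  classical
  by_contra hne
  have h1 : a.1 (Gam.node pat z Y) = true := by
    cases h2 : a.1 (Gam.node pat z Y)
    · exact absurd h2 hne
    · rfl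
  obtain ⟨k, T, hT, hmu⟩ := a.2 (insert (Gam.node pat z Y)
    ((Finset.range (pat j).1).image (fun i => Y j i)))
  obtain ⟨R, hR⟩ := nonempty_of_measure_ne_zero hmu
  have h2 : tr (Gam.node pat z Y) (cut R T) = true := by
    rw [← h1]
    exact hR _ (Finset.mem_insert_self _ _)
  have h3 := ((tr_node pat z Y _).1 h2).2 hv j
  apply h3
  rw [ev_congr (b' := fun i => a.1 (Y j i))]
  · exact h
  · intro i hi
    exact hR _ (Finset.mem_insert_of_mem
      (Finset.mem_image_of_mem _ (Finset.mem_range.2 hi)))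

/-! ### Differences of averages -/

/-- The difference of averages, as a continuous function. -/
noncomputable def DelC (pat : ℕ → Pat) (Y : ℕ → ℕ → Gam) (N : ℕ) (z z' : ℕ → ℝ) : C(Kc, ℝ) :=
  (1 / (N : ℝ)) • ∑ i ∈ Finset.range N, (fx (Gam.node pat (z i) Y) - fx (Gam.node pat (z' i) Y))

lemma DelC_apply (pat : ℕ → Pat) (Y : ℕ → ℕ → Gam) (N : ℕ) (z z' : ℕ → ℝ) (a : Kc) :
    DelC pat Y N z z' a = Del pat Y N z z' a.1 := by
  unfold DelC Del
  simp only [ContinuousMap.smul_apply, ContinuousMap.coe_sum, Finset.sum_apply,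
    ContinuousMap.sub_apply, fx_apply, smul_eq_mul]

lemma term_le (x x' : Gam) (a : Gam → Bool) : |cc x * bit (a x) - cc x' * bit (a x')| ≤ 2 := by
  have h1 := cc_pos x
  have h2 := cc_le x
  have h3 := cc_pos x'
  have h4 := cc_le x'
  have h5 := bit_nonneg (a x)
  have h6 := bit_nonneg (a x')
  have h7 := (abs_le.1 (bit_le (a x))).2
  have h8 := (abs_le.1 (bit_le (a x'))).2
  rw [abs_le]
  constructor <;> nlinarith

lemma Del_le (pat : ℕ → Pat) (Y : ℕ → ℕ → Gam) (N : ℕ) (z z' : ℕ → ℝ) (a : Gam → Bool) :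
    |Del pat Y N z z' a| ≤ 2 := by
  unfold Del
  rcases Nat.eq_zero_or_pos N with h0 | h0
  · subst h0
    simp
  · have hN : (0 : ℝ) < N := by exact_mod_cast h0
    rw [abs_mul, abs_of_pos (by positivity : (0 : ℝ) < 1 / (N : ℝ))]
    have h1 := (Finset.abs_sum_le_sum_abs (fun i =>
      (cc (Gam.node pat (z i) Y) * bit (a (Gam.node pat (z i) Y)) -
      cc (Gam.node pat (z' i) Y) * bit (a (Gam.node pat (z' i) Y)))) (Finset.range N)).trans
      (Finset.sum_le_sum fun i _ => term_le _ _ a)
    rw [Finset.sum_const, Finset.card_range, nsmul_eq_mul] at h1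
    rw [one_div, ← div_eq_inv_mul, div_le_iff₀ hN]
    linarith

lemma finD_ex (U : ℕ → (Gam → Bool) → Prop) (hU : ∀ i, FinD (U i)) (j : ℕ) :
    FinD (fun a => ∃ i < j, U i a) := by
  induction j with
  | zero => exact ⟨∅, fun a b _ => by simp⟩
  | succ j ih =>
    have h1 := ih.or (hU j)
    have h2 : (fun a => ∃ i < j + 1, U i a) = fun a => (∃ i < j, U i a) ∨ U j a := by
      funext a
      apply propext
      constructor
      · rintro ⟨i, hi, h⟩
        rcases Nat.lt_succ_iff_lt_or_eq.1 hi with h1 | h1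
        · exact Or.inl ⟨i, h1, h⟩
        · subst h1
          exact Or.inr h
      · rintro (⟨i, hi, h⟩ | h)
        · exact ⟨i, by omega, h⟩
        · exact ⟨j, by omega, h⟩
    rw [h2]
    exact h1

/-- Bounded alternation of functionals along a fibre. -/
lemma alternation (φ : C(Kc, ℝ) →L[ℝ] ℝ) (U : ℕ → (Gam → Bool) → Prop)
    (hU : ∀ j, Small j (U j))
    (hφ : ∀ ε : ℝ, 0 < ε → ∃ j, ∀ W, Small j W → ∀ f : C(Kc, ℝ), ‖f‖ ≤ 1 →
        (∀ a : Kc, f a ≠ 0 → W a.1 ∧ ∀ i < j, ¬ U i a.1) → |φ f| ≤ ε)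
    (pat : ℕ → Pat) (Y : ℕ → ℕ → Gam)
    (hcode : ∀ j, ∀ a : Gam → Bool, U j a ↔ ev (pat j) (fun i => a (Y j i)))
    (a b : ℝ) (hab : a < b) :
    ∃ N : ℕ, ¬ ∃ z z' : ℕ → ℝ,
      (∀ i < N, loc (Gam.node pat (z i) Y) < loc (Gam.node pat (z' i) Y)) ∧
      (∀ i j, i < j → j < N → loc (Gam.node pat (z' i) Y) < loc (Gam.node pat (z j) Y)) ∧
      (∀ i < N, b ≤ φ (fx (Gam.node pat (z i) Y))) ∧
      ∀ i < N, φ (fx (Gam.node pat (z' i) Y)) ≤ a := by
  classical
  -- validity of the code
  have hv : Valid pat (fun j i => tr (Y j i)) := by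
    intro j
    refine ⟨fun h => (hU j).2.1 ((hcode j _).2 h), fun T hT => ?_⟩
    have h1 := (hU j).2.2 T hT
    have h2 : {R | ev (pat j) (fun i => tr (Y j i) (cut R T))} = {R | U j (TR (cut R T))} := by
      ext R
      exact (hcode j (TR (cut R T))).symm
    rw [h2]
    exact h1
  have hφ0 := norm_nonneg φ
  obtain ⟨j, hj⟩ := hφ ((b - a) / 8) (by linarith)
  set η : ℝ := (b - a) / (4 * (1 + ‖φ‖)) with hη
  have hη0 : 0 < η := div_pos (by linarith) (by positivity)
  obtain ⟨N₀, hN₀⟩ := conc pat Y j η hη0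
  refine ⟨N₀ + 1, ?_⟩
  rintro ⟨z, z', h1, h2, h3, h4⟩
  set N := N₀ + 1 with hN
  have hNpos : (0 : ℝ) < N := by rw [hN]; positivity
  -- the small condition
  let W : (Gam → Bool) → Prop := fun c => η < |Del pat Y N z z' c|
  have hW : Small j W := by
    refine ⟨⟨(Finset.range N).image (fun i => Gam.node pat (z i) Y) ∪
      (Finset.range N).image (fun i => Gam.node pat (z' i) Y), fun c d hcd => ?_⟩, ?_,
      hN₀ N (by omega) z z' h1 h2⟩
    · have h5 : Del pat Y N z z' c = Del pat Y N z z' d := by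
        unfold Del
        congr 1
        refine Finset.sum_congr rfl fun i hi => ?_
        rw [hcd _ (Finset.mem_union_left _ (Finset.mem_image_of_mem _ hi)),
          hcd _ (Finset.mem_union_right _ (Finset.mem_image_of_mem _ hi))]
      simp only [W, h5]
    · simp only [W, Del, bit]
      simp only [Bool.false_eq_true, if_false, mul_zero, sub_zero, Finset.sum_const_zero, abs_zero]
      linarith
  let V : (Gam → Bool) → Prop := fun c => W c ∧ ¬ ∃ i < j, U i c
  have hVF : FinD V := hW.1.and_not (finD_ex U (fun i => (hU i).1) j)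
  set Δ : C(Kc, ℝ) := DelC pat Y N z z' with hΔ
  have hΔ2 : ∀ c : Kc, |Δ c| ≤ 2 := fun c => by
    rw [hΔ, DelC_apply]
    exact Del_le _ _ _ _ _ _
  -- the large part
  let Δ1 : C(Kc, ℝ) := indC V * Δ
  let Δ2 : C(Kc, ℝ) := Δ - Δ1
  have hb1 : |φ Δ1| ≤ (b - a) / 4 := by
    have h5 : |φ ((1 / 2 : ℝ) • Δ1)| ≤ (b - a) / 8 := by
      apply hj W hW
      · rw [ContinuousMap.norm_le _ zero_le_one]
        intro c
        have h6 := hΔ2 c
        rw [ContinuousMap.smul_apply, Real.norm_eq_abs, smul_eq_mul, abs_mul,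
          abs_of_pos (by norm_num : (0 : ℝ) < 1 / 2)]
        have h7 : |Δ1 c| ≤ 2 := by
          simp only [Δ1, ContinuousMap.mul_apply]
          rw [indC_apply hVF]
          split_ifs
          · rwa [one_mul]
          · rw [zero_mul, abs_zero]
            norm_num
        linarith
      · intro c hc
        have h6 : V c.1 := by
          by_contra hne
          apply hc
          simp only [Δ1, ContinuousMap.smul_apply, ContinuousMap.mul_apply]
          rw [indC_apply hVF, if_neg hne, zero_mul, smul_zero]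
        refine ⟨h6.1, fun i hi hUi => h6.2 ⟨i, hi, hUi⟩⟩
    rw [map_smul, smul_eq_mul, abs_mul, abs_of_pos (by norm_num : (0 : ℝ) < 1 / 2)] at h5
    linarith
  -- the small part
  have hb2 : |φ Δ2| ≤ (b - a) / 4 := by
    have h5 : ‖Δ2‖ ≤ η := by
      rw [ContinuousMap.norm_le _ hη0.le]
      intro c
      rw [Real.norm_eq_abs]
      simp only [Δ2, Δ1, ContinuousMap.sub_apply, ContinuousMap.mul_apply]
      rw [indC_apply hVF]
      by_cases hVc : V c.1
      · rw [if_pos hVc, one_mul, sub_self, abs_zero]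
        exact hη0.le
      · rw [if_neg hVc, zero_mul, sub_zero]
        by_cases hWc : W c.1
        · have h6 : ∃ i < j, U i c.1 := by
            by_contra hcon
            exact hVc ⟨hWc, hcon⟩
          obtain ⟨i, -, hUi⟩ := h6
          have h7 : ∀ u : ℝ, c.1 (Gam.node pat u Y) = false := fun u =>
            kill hv u i c ((hcode i c.1).1 hUi)
          have h8 : Δ c = 0 := by
            rw [hΔ, DelC_apply]
            unfold Del
            simp only [h7, bit]
            simp
          rw [h8, abs_zero]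
          exact hη0.le
        · rw [hΔ, DelC_apply]
          exact not_lt.1 hWc
    have h6 := φ.le_opNorm Δ2
    rw [Real.norm_eq_abs] at h6
    have h7 : ‖φ‖ * ‖Δ2‖ ≤ ‖φ‖ * η := mul_le_mul_of_nonneg_left h5 hφ0
    have h8 : ‖φ‖ * η ≤ (b - a) / 4 := by
      rw [hη, mul_div_assoc', div_le_div_iff₀ (by positivity) (by norm_num)]
      nlinarith
    linarith
  -- the value
  have hsum : φ Δ = φ Δ1 + φ Δ2 := by
    rw [← map_add]
    congr 1
    simp only [Δ2]
    abel
  have hval : b - a ≤ φ Δ := by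
    rw [hΔ]
    unfold DelC
    rw [map_smul, map_sum, smul_eq_mul]
    have h5 : ∑ _i ∈ Finset.range N, (b - a) ≤ ∑ i ∈ Finset.range N,
        φ (fx (Gam.node pat (z i) Y) - fx (Gam.node pat (z' i) Y)) := by
      refine Finset.sum_le_sum fun i hi => ?_
      rw [map_sub]
      have e1 := h3 i (Finset.mem_range.1 hi)
      have e2 := h4 i (Finset.mem_range.1 hi)
      linarith
    rw [Finset.sum_const, Finset.card_range, nsmul_eq_mul] at h5
    rw [one_div, ← div_eq_inv_mul, le_div_iff₀ hNpos]
    linarith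
  have h5 := (abs_le.1 hb1).2
  have h6 := (abs_le.1 hb2).2
  linarith

/-- The supremum norm of `C(Kc)` is not measurable for the `σ`-algebra generated by the continuous
linear functionals. -/
theorem not_measurable_norm :
    ¬ @Measurable C(Kc, ℝ) ℝ (baire C(Kc, ℝ)) inferInstance (fun f => ‖f‖) := by
  classical
  intro hm
  have hA : @MeasurableSet C(Kc, ℝ) (baire C(Kc, ℝ)) ((fun f => ‖f‖) ⁻¹' Set.Ioi (3 / 2 : ℝ)) :=
    hm measurableSet_Ioi
  obtain ⟨φ, B, hB, hAB⟩ := baire_repr _ hA
  obtain ⟨U, hU, hgr⟩ := greedy φ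
  have hcodes : ∀ j, ∃ (q : Pat) (Y : ℕ → Gam), ∀ a : Gam → Bool,
      U j a ↔ ev q (fun i => a (Y i)) := by
    intro j
    obtain ⟨H, hH⟩ := (hU j).1
    exact exists_code H (U j) hH
  choose pat Y hcode using hcodes
  have hl : Function.Injective (fun z : ℝ => loc (Gam.node pat z Y)) := by
    intro z z' h
    have := loc_injective h
    rw [Gam.node.injEq] at this
    exact this.2.1
  have hg : ∀ m, @Measurable ℝ ℝ
      (MeasurableSpace.comap (fun z => loc (Gam.node pat z Y)) (borel ℝ)) inferInstance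
      (fun z => φ m (fx (Gam.node pat z Y))) := fun m =>
    reg_measurable _ _ hl fun a b hab => alternation (φ m) U hU (hgr m) pat Y hcode a b hab
  apply SS_spec pat Y
  have h1 : {z : ℝ | Gam.node pat z Y ∈ SS} =
      (fun z (m : ℕ) => φ m (fx (Gam.node pat z Y))) ⁻¹' B := by
    ext z
    have h2 : fx (Gam.node pat z Y) ∈ ((fun f : C(Kc, ℝ) => ‖f‖) ⁻¹' Set.Ioi (3 / 2 : ℝ)) ↔
        fx (Gam.node pat z Y) ∈ {x | (fun n => φ n x) ∈ B} := by rw [hAB]
    rw [Set.mem_preimage, Set.mem_Ioi, norm_fx, Set.mem_ofPred_eq] at h2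
    rw [Set.mem_ofPred_eq, Set.mem_preimage, ← h2]
    unfold cc
    split_ifs with h3
    · simp only [h3, true_iff]
      norm_num
    · simp only [h3, false_iff]
      norm_num
  rw [h1]
  exact (@measurable_pi_iff ℝ ℕ (fun _ => ℝ)
    (MeasurableSpace.comap (fun z => loc (Gam.node pat z Y)) (borel ℝ)) _ _).2 hg hB

end Pool.Agent.Lib.P2cbQ
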