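import Pool.Agent.Lib.P2cbQ.Defs

/-!
# Measurability and resampling of one coordinate
-/

set_option autoImplicit false
open Set MeasureTheory

namespace Pool.Agent.Lib.P2cbQ

lemma measurable_coord (x : Gam) : Measurable (fun R : Gam → Bool => R x) := measurable_pi_apply x

lemma measurableSet_ev (q : Pat) (t : ℕ → (Gam → Bool) → Bool) (ht : ∀ i, Measurable (t i)) :
    MeasurableSet {R | ev q (fun i => t i R)} := by
  have h1 : {R : Gam → Bool | ev q (fun i => t i R)} =
      ⋃ s ∈ q.2, {R | (Finset.range q.1).filter (fun i => t i R = true) = s} := by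
    ext R
    simp [ev]
  rw [h1]
  refine Finset.measurableSet_biUnion _ fun s _ => ?_
  have h2 : {R : Gam → Bool | (Finset.range q.1).filter (fun i => t i R = true) = s} =
      ⋂ i : ℕ, {R | (i < q.1 ∧ t i R = true) ↔ i ∈ s} := by
    ext R
    simp only [Set.mem_ofPred_eq, Set.mem_iInter, Finset.ext_iff, Finset.mem_filter,
      Finset.mem_range]
  rw [h2]
  refine MeasurableSet.iInter fun i => ?_
  have h3 : MeasurableSet {R | t i R = true} := ht i (measurableSet_singleton true)
  by_cases h4 : i < q.1 <;> by_cases h5 : i ∈ s
  · simpa [h4, h5] using h3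
  · have : {R : Gam → Bool | (i < q.1 ∧ t i R = true) ↔ i ∈ s} = {R | t i R = true}ᶜ := by
      ext R; simp [h4, h5]
    rw [this]
    exact h3.compl
  · simp [h4, h5]
  · simp [h4, h5]

lemma measurable_tr (x : Gam) : Measurable (tr x) := by
  induction x with
  | base =>
    have : tr Gam.base = fun R => R Gam.base := by funext R; exact tr_base R
    rw [this]
    exact measurable_coord _
  | node pat z Y ih =>
    apply measurable_to_bool
    have h1 : tr (Gam.node pat z Y) ⁻¹' {true} = {R | R (Gam.node pat z Y) = true} ∩
        {R | Valid pat (fun j i => tr (Y j i)) → ∀ j, ¬ ev (pat j) (fun i => tr (Y j i) R)} := by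
      ext R
      simp only [Set.mem_preimage, Set.mem_singleton_iff, tr_node, Set.mem_inter_iff,
        Set.mem_ofPred_eq]
    rw [h1]
    refine (measurable_coord _ (measurableSet_singleton true)).inter ?_
    by_cases hv : Valid pat (fun j i => tr (Y j i))
    · have h2 : {R | Valid pat (fun j i => tr (Y j i)) →
          ∀ j, ¬ ev (pat j) (fun i => tr (Y j i) R)} =
          ⋂ j : ℕ, {R | ev (pat j) (fun i => tr (Y j i) R)}ᶜ := by
        ext R
        simp [hv]
      rw [h2]
      exact MeasurableSet.iInter fun j => (measurableSet_ev _ _ (fun i => ih j i)).compl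
    · have h2 : {R : Gam → Bool | Valid pat (fun j i => tr (Y j i)) →
          ∀ j, ¬ ev (pat j) (fun i => tr (Y j i) R)} = Set.univ := by
        ext R
        simp [hv]
      rw [h2]
      exact MeasurableSet.univ

lemma measurable_TR : Measurable TR := measurable_pi_iff.2 fun x => measurable_tr x

lemma measurable_cut (T : Set Gam) : Measurable (fun R => cut R T) := by
  classical
  refine measurable_pi_iff.2 fun x => ?_
  by_cases hx : x ∈ T
  · have : (fun R : Gam → Bool => cut R T x) = fun R => R x := by
      funext R; simp [cut, hx]
    rw [this]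
    exact measurable_coord x
  · have : (fun R : Gam → Bool => cut R T x) = fun _ => false := by
      funext R; simp [cut, hx]
    rw [this]
    exact measurable_const

lemma measurable_TRcut (T : Set Gam) : Measurable (fun R => TR (cut R T)) :=
  measurable_TR.comp (measurable_cut T)

/-! ### Continuous functions on the cube -/

/-- Continuous functions on the cube depend on finitely many coordinates up to `ε`. -/
lemma exists_finite_dep (g : C(Gam → Bool, ℝ)) (ε : ℝ) (hε : 0 < ε) :
    ∃ H : Finset Gam, ∀ a b : Gam → Bool, (∀ x ∈ H, a x = b x) → |g a - g b| < ε := by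
  classical
  have hloc : ∀ a : Gam → Bool, ∃ G : Finset Gam, ∀ b : Gam → Bool, (∀ x ∈ G, a x = b x) →
      |g a - g b| < ε / 2 := by
    intro a
    have h1 : g ⁻¹' (Metric.ball (g a) (ε / 2)) ∈ nhds a :=
      g.continuous.continuousAt (Metric.ball_mem_nhds _ (by linarith))
    rw [nhds_pi, Filter.mem_pi] at h1
    obtain ⟨I, hI, t, ht, hsub⟩ := h1
    refine ⟨hI.toFinset, fun b hb => ?_⟩
    have h3 : b ∈ g ⁻¹' (Metric.ball (g a) (ε / 2)) := by
      apply hsub
      intro i hi
      rw [← hb i (hI.mem_toFinset.2 hi)]
      exact mem_of_mem_nhds (ht i)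
    rw [Set.mem_preimage, Metric.mem_ball, dist_comm, Real.dist_eq] at h3
    exact h3
  choose G hG using hloc
  have hopen : ∀ a : Gam → Bool, IsOpen {b : Gam → Bool | ∀ x ∈ G a, a x = b x} := by
    intro a
    have : {b : Gam → Bool | ∀ x ∈ G a, a x = b x} =
        ⋂ x ∈ G a, {b : Gam → Bool | a x = b x} := by
      ext b; simp
    rw [this]
    apply isOpen_biInter_finset
    intro x _
    exact (isOpen_discrete {y : Bool | a x = y}).preimage (continuous_apply x)
  obtain ⟨t, ht⟩ := isCompact_univ.elim_finite_subcover
    (fun a : Gam → Bool => {b : Gam → Bool | ∀ x ∈ G a, a x = b x}) hopen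
    (fun a _ => Set.mem_iUnion.2 ⟨a, fun _ _ => rfl⟩)
  refine ⟨t.biUnion G, fun a b hab => ?_⟩
  obtain ⟨c, hc⟩ := Set.mem_iUnion.1 (ht (Set.mem_univ a))
  obtain ⟨hct, hca⟩ := Set.mem_iUnion.1 hc
  have hcb : ∀ x ∈ G c, c x = b x := by
    intro x hx
    rw [← hab x (Finset.mem_biUnion.2 ⟨c, hct, hx⟩)]
    exact hca x hx
  have h1 := hG c a hca
  have h2 := hG c b hcb
  have h3 : |g a - g b| ≤ |g c - g a| + |g c - g b| := by
    have : g a - g b = (g c - g b) - (g c - g a) := by ring
    rw [this, add_comm]
    exact abs_sub _ _
  linarith

/-- Functions depending on finitely many coordinates are measurable. -/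
lemma measurable_of_finite_dep (g : (Gam → Bool) → ℝ) (H : Finset Gam)
    (h : ∀ a b : Gam → Bool, (∀ x ∈ H, a x = b x) → g a = g b) : Measurable g := by
  classical
  let r : (Gam → Bool) → (H → Bool) := fun a x => a x
  let s : (H → Bool) → (Gam → Bool) := fun b x => if hx : x ∈ H then b ⟨x, hx⟩ else false
  have h1 : g = (fun b => g (s b)) ∘ r := by
    funext a
    apply h
    intro x hx
    simp [s, r, hx]
  rw [h1]
  have hr : Measurable r := measurable_pi_iff.2 fun x => measurable_coord x.1
  exact (measurable_of_finite _).comp hr

/-- Continuous functions on the cube are measurable for the product `σ`-algebra. -/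
lemma measurable_cont (g : C(Gam → Bool, ℝ)) : Measurable (fun a => g a) := by
  classical
  choose H hH using fun n : ℕ => exists_finite_dep g (1 / ((n : ℝ) + 1)) (by positivity)
  let gn : ℕ → (Gam → Bool) → ℝ := fun n a => g (fun x => if x ∈ H n then a x else false)
  refine measurable_of_tendsto_metrizable (f := gn) (fun n => ?_) ?_
  · refine measurable_of_finite_dep (gn n) (H n) fun a b hab => ?_
    simp only [gn]
    congr 1
    funext x
    by_cases hx : x ∈ H n
    · simp [hx, hab x hx]
    · simp [hx]
  · rw [tendsto_pi_nhds]
    intro a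
    rw [Metric.tendsto_atTop]
    intro ε hε
    obtain ⟨N, hN⟩ := exists_nat_one_div_lt hε
    refine ⟨N, fun n hn => ?_⟩
    rw [Real.dist_eq]
    have h1 : |g (fun x => if x ∈ H n then a x else false) - g a| < 1 / ((n : ℝ) + 1) := by
      apply hH n
      intro x hx
      simp [hx]
    have h2 : 1 / ((n : ℝ) + 1) ≤ 1 / ((N : ℝ) + 1) := by
      apply one_div_le_one_div_of_le (by positivity)
      have : (N : ℝ) ≤ n := by exact_mod_cast hn
      linarith
    exact h1.trans_le (h2.trans hN.le)

/-! ### Resampling -/

open scoped Classical in
lemma measurable_update (x : Gam) (b : Bool) :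
    Measurable (fun R : Gam → Bool => Function.update R x b) := by
  refine measurable_pi_iff.2 fun y => ?_
  by_cases h : y = x
  · subst h
    simp only [Function.update_self]
    exact measurable_const
  · simp only [Function.update_of_ne h]
    exact measurable_coord y

open scoped Classical in
/-- The law of the random set is invariant under resampling of one coordinate. -/
lemma mu_resample (x : Gam) :
    mu = ENNReal.ofReal (pp x) • mu.map (fun R => Function.update R x true) +
      ENNReal.ofReal (1 - pp x) • mu.map (fun R => Function.update R x false) := by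
  symm
  unfold mu
  apply Measure.eq_infinitePi
  intro s t ht
  have hb : ∀ b : Bool, ((Measure.infinitePi bern).map (fun R => Function.update R x b))
      (Set.pi s t) = (if x ∈ s then (if b ∈ t x then 1 else 0) else 1) *
        ∏ i ∈ s.erase x, bern i (t i) := by
    intro b
    rw [Measure.map_apply (measurable_update x b)
      (MeasurableSet.pi s.countable_toSet fun _ _ => ht _)]
    by_cases hb : x ∈ s → b ∈ t x
    · have h1 : (fun R : Gam → Bool => Function.update R x b) ⁻¹' (Set.pi s t) =
          Set.pi (s.erase x : Finset Gam) t := by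
        ext R
        simp only [Set.mem_preimage, Set.mem_pi, Finset.mem_coe, Finset.mem_erase]
        constructor
        · intro h i hi
          have := h i hi.2
          rwa [Function.update_of_ne hi.1] at this
        · intro h i hi
          by_cases hix : i = x
          · subst hix
            rw [Function.update_self]
            exact hb hi
          · rw [Function.update_of_ne hix]
            exact h i ⟨hix, hi⟩
      rw [h1, Measure.infinitePi_pi _ (fun i _ => ht i)]
      by_cases hx : x ∈ s
      · simp [hx, hb hx]
      · simp [hx]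
    · push Not at hb
      have h1 : (fun R : Gam → Bool => Function.update R x b) ⁻¹' (Set.pi s t) = ∅ := by
        ext R
        simp only [Set.mem_preimage, Set.mem_pi, Finset.mem_coe, Set.mem_empty_iff_false,
          iff_false, not_forall]
        refine ⟨x, hb.1, ?_⟩
        rw [Function.update_self]
        exact hb.2
      rw [h1]
      simp [hb.1, hb.2]
  simp only [Measure.coe_add, Measure.coe_smul, Pi.add_apply, Pi.smul_apply, smul_eq_mul]
  rw [hb true, hb false]
  by_cases hx : x ∈ s
  · rw [← Finset.mul_prod_erase s _ hx]
    have h2 : bern x (t x) = ENNReal.ofReal (pp x) * (if true ∈ t x then 1 else 0) +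
        ENNReal.ofReal (1 - pp x) * (if false ∈ t x then 1 else 0) := by
      unfold bern
      simp only [Measure.coe_add, Measure.coe_smul, Pi.add_apply, Pi.smul_apply, smul_eq_mul]
      rw [Measure.dirac_apply' _ (ht x), Measure.dirac_apply' _ (ht x)]
      simp [Set.indicator_apply]
    rw [h2]
    simp only [hx, if_true]
    ring
  · simp only [hx, if_false, one_mul, Finset.erase_eq_of_notMem hx, ]
    rw [← add_mul, ← ENNReal.ofReal_add (pp_pos x).le (by linarith [pp_lt x])]
    simp

open scoped Classical in
/-- Resampling of one coordinate in an integral. -/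
lemma integral_resample (x : Gam) (F : (Gam → Bool) → ℝ) (hF : Measurable F) (C : ℝ)
    (hC : ∀ R, |F R| ≤ C) :
    ∫ R, F R ∂mu = pp x * ∫ R, F (Function.update R x true) ∂mu +
      (1 - pp x) * ∫ R, F (Function.update R x false) ∂mu := by
  have hint : ∀ (ν : Measure (Gam → Bool)) [IsFiniteMeasure ν], Integrable F ν := fun ν _ =>
    Integrable.of_bound hF.aestronglyMeasurable C (Filter.Eventually.of_forall fun R => by
      rw [Real.norm_eq_abs]; exact hC R)
  conv_lhs => rw [mu_resample x]
  have hi : ∀ b : Bool, Integrable F (mu.map (fun R => Function.update R x b)) := by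
    intro b
    have : IsProbabilityMeasure (mu.map (fun R => Function.update R x b)) :=
      Measure.isProbabilityMeasure_map (measurable_update x b).aemeasurable
    exact hint _
  rw [integral_add_measure ((hi true).smul_measure ENNReal.ofReal_ne_top)
    ((hi false).smul_measure ENNReal.ofReal_ne_top), integral_smul_measure, integral_smul_measure,
    integral_map (measurable_update x true).aemeasurable hF.aestronglyMeasurable,
    integral_map (measurable_update x false).aemeasurable hF.aestronglyMeasurable,
    ENNReal.toReal_ofReal (pp_pos x).le, ENNReal.toReal_ofReal (by linarith [pp_lt x])]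
  simp only [smul_eq_mul]

end Pool.Agent.Lib.P2cbQ
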