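import Pool.Agent.Lib.P2cbQ.Cont

/-!
# Countably many laws separate the continuous functions on the compact space
-/

set_option autoImplicit false
open Set MeasureTheory

namespace Pool.Agent.Lib.P2cbQ

/-- Symmetric differences of `k` lower sets with rational bounds. -/
def RT : ℕ → Set (Set Gam)
  | 0 => {∅}
  | k + 1 => {A | ∃ T ∈ RT k, ∃ q : ℚ, A = symmDiff T {x | loc x < (q : ℝ)}}

lemma RT_subset (k : ℕ) : RT k ⊆ TT k := by
  induction k with
  | zero => exact subset_rfl
  | succ k ih =>
    rintro A ⟨T, hT, q, rfl⟩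
    exact TT_symmDiff (ih hT) (low_lt _)

lemma RT_countable (k : ℕ) : (RT k).Countable := by
  induction k with
  | zero => exact Set.countable_singleton _
  | succ k ih =>
    have h1 : RT (k + 1) =
        (fun p : Set Gam × ℚ => symmDiff p.1 {x | loc x < (p.2 : ℝ)}) '' (RT k ×ˢ Set.univ) := by
      ext A
      constructor
      · rintro ⟨T, hT, q, rfl⟩
        exact ⟨(T, q), ⟨hT, Set.mem_univ _⟩, rfl⟩
      · rintro ⟨⟨T, q⟩, ⟨hT, -⟩, rfl⟩
        exact ⟨T, hT, q, rfl⟩
    rw [h1]
    exact (ih.prod Set.countable_univ).image _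

/-- Rational approximation of lower sets on finite sets. -/
lemma low_approx (D : Set Gam) (hD : Low D) (H : Finset Gam) :
    ∃ q : ℚ, ∀ y ∈ H, y ∈ D ↔ loc y < (q : ℝ) := by
  classical
  -- an upper bound for the members and a lower bound for the others
  have h1 : ∃ r : ℝ, (∀ y ∈ H, y ∈ D → loc y < r) ∧ (∀ y ∈ H, y ∉ D → r ≤ loc y) := by
    rcases (H.filter (fun y => y ∉ D)).eq_empty_or_nonempty with he | hne
    · obtain ⟨r, hr⟩ : ∃ r : ℝ, ∀ y ∈ H, loc y < r := by
        rcases H.eq_empty_or_nonempty with h0 | h0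
        · exact ⟨0, fun y hy => by rw [h0] at hy; exact absurd hy (Finset.notMem_empty y)⟩
        · refine ⟨(H.sup' h0 loc) + 1, fun y hy => ?_⟩
          have := Finset.le_sup' loc hy
          linarith
      refine ⟨r, fun y hy _ => hr y hy, fun y hy hyD => ?_⟩
      have : y ∈ H.filter (fun y => y ∉ D) := Finset.mem_filter.2 ⟨hy, hyD⟩
      rw [he] at this
      exact absurd this (Finset.notMem_empty y)
    · obtain ⟨y₀, hy₀, hmin⟩ := Finset.exists_min_image _ loc hne
      rw [Finset.mem_filter] at hy₀
      refine ⟨loc y₀, fun y _ hyD => ?_, fun y hy hyD => hmin y (Finset.mem_filter.2 ⟨hy, hyD⟩)⟩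
      by_contra hcon
      exact hy₀.2 (hD y hyD y₀ (not_lt.1 hcon))
  obtain ⟨r, hr1, hr2⟩ := h1
  -- a rational number slightly smaller
  obtain ⟨s, hs, hs'⟩ : ∃ s < r, ∀ y ∈ H, y ∈ D → loc y ≤ s := by
    rcases (H.filter (fun y => y ∈ D)).eq_empty_or_nonempty with he | hne
    · refine ⟨r - 1, by linarith, fun y hy hyD => ?_⟩
      have : y ∈ H.filter (fun y => y ∈ D) := Finset.mem_filter.2 ⟨hy, hyD⟩
      rw [he] at this
      exact absurd this (Finset.notMem_empty y)
    · obtain ⟨y₀, hy₀, hmax⟩ := Finset.exists_max_image _ loc hne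
      rw [Finset.mem_filter] at hy₀
      exact ⟨loc y₀, hr1 y₀ hy₀.1 hy₀.2, fun y hy hyD => hmax y (Finset.mem_filter.2 ⟨hy, hyD⟩)⟩
  obtain ⟨q, hq1, hq2⟩ := exists_rat_btwn hs
  refine ⟨q, fun y hy => ⟨fun h => (hs' y hy h).trans_lt hq1, fun h => ?_⟩⟩
  by_contra hyD
  have := hr2 y hy hyD
  linarith

lemma RT_approx (k : ℕ) : ∀ T ∈ TT k, ∀ H : Finset Gam, ∃ T' ∈ RT k, ∀ y ∈ H, y ∈ T ↔ y ∈ T' := by
  induction k with
  | zero => exact fun T hT H => ⟨T, hT, fun y _ => Iff.rfl⟩
  | succ k ih =>
    rintro A ⟨T, hT, D, hD, rfl⟩ H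
    obtain ⟨T', hT', h1⟩ := ih T hT H
    obtain ⟨q, hq⟩ := low_approx D hD H
    refine ⟨symmDiff T' {x | loc x < (q : ℝ)}, ⟨T', hT', q, rfl⟩, fun y hy => ?_⟩
    have h2 := h1 y hy
    have h3 := hq y hy
    rw [Set.mem_symmDiff, Set.mem_symmDiff, Set.mem_ofPred_eq, h2, h3]

/-- Vanishing for the rational sets implies vanishing for all sets. -/
lemma int_zero (g : C(Gam → Bool, ℝ))
    (hg : ∀ k, ∀ T ∈ RT k, ∫ R, g (TR (cut R T)) ∂mu = 0) :
    ∀ k, ∀ T ∈ TT k, ∫ R, g (TR (cut R T)) ∂mu = 0 := by
  intro k T hT
  have h1 : ∀ ε : ℝ, 0 < ε → |∫ R, g (TR (cut R T)) ∂mu| ≤ ε := by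
    intro ε hε
    obtain ⟨H, hH⟩ := int_cont g k ε hε
    obtain ⟨T', hT', hag⟩ := RT_approx k T hT H
    have h2 := hH T hT T' (RT_subset k hT') hag
    rwa [hg k T' hT', sub_zero] at h2
  have h2 : |∫ R, g (TR (cut R T)) ∂mu| ≤ 0 := le_of_forall_pos_le_add fun ε hε => by
    rw [zero_add]; exact h1 ε hε
  exact abs_eq_zero.1 (le_antisymm h2 (abs_nonneg _))

open scoped Classical in
/-- The indicator of a cylinder. -/
noncomputable def ind (X : Finset Gam) (b : Gam → Bool) (R : Gam → Bool) : ℝ :=
  if ∀ x ∈ X, R x = b x then 1 else 0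

lemma ind_bdd (X : Finset Gam) (b R : Gam → Bool) : |ind X b R| ≤ 1 := by
  unfold ind; split_ifs <;> simp

lemma measurable_ind (X : Finset Gam) (b : Gam → Bool) : Measurable (ind X b) := by
  refine measurable_of_finite_dep _ X fun a a' h => ?_
  unfold ind
  have : (∀ x ∈ X, a x = b x) ↔ (∀ x ∈ X, a' x = b x) :=
    forall₂_congr fun x hx => by rw [h x hx]
  simp only [this]

open scoped Classical in
lemma cut_update_false (R : Gam → Bool) (T : Set Gam) (x : Gam) :
    cut (Function.update R x false) T = cut R (T \ {x}) := by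
  funext y
  rw [Bool.eq_iff_iff, cut_eq_true, cut_eq_true, Set.mem_sdiff, Set.mem_singleton_iff]
  by_cases h : y = x
  · subst h
    simp
  · simp [h]

lemma integrable_ind (g : C(Gam → Bool, ℝ)) (X : Finset Gam) (b : Gam → Bool) (T : Set Gam) :
    ∀ R, |ind X b R * g (TR (cut R T))| ≤ ‖g‖ := by
  intro R
  rw [abs_mul]
  have h1 := ind_bdd X b R
  have h2 := abs_le_nrm g (TR (cut R T))
  have h3 := abs_nonneg (ind X b R)
  have h4 := abs_nonneg (g (TR (cut R T)))
  nlinarith [norm_nonneg g]

open scoped Classical in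
/-- The integrals over all cylinders vanish. -/
lemma cyl_zero (g : C(Gam → Bool, ℝ))
    (hg : ∀ k, ∀ T ∈ TT k, ∫ R, g (TR (cut R T)) ∂mu = 0) (b : Gam → Bool) (X : Finset Gam) :
    ∀ k, ∀ T ∈ TT k, ∫ R, ind X b R * g (TR (cut R T)) ∂mu = 0 := by
  induction X using Finset.induction_on with
  | empty =>
    intro k T hT
    have : (fun R => ind ∅ b R * g (TR (cut R T))) = fun R => g (TR (cut R T)) := by
      funext R
      simp [ind]
    rw [this]
    exact hg k T hT
  | insert x X hx ih =>
    intro k T hT
    have hm : ∀ Z : Finset Gam, Measurable (fun R => ind Z b R * g (TR (cut R T))) := fun Z =>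
      (measurable_ind Z b).mul (measurable_gTR g T)
    -- indicators after resampling
    have hind : ∀ (c : Bool) (R : Gam → Bool), ind X b (Function.update R x c) = ind X b R := by
      intro c R
      unfold ind
      have : (∀ y ∈ X, Function.update R x c y = b y) ↔ (∀ y ∈ X, R y = b y) := by
        refine forall₂_congr fun y hy => ?_
        have hyx : y ≠ x := fun h => hx (h ▸ hy)
        rw [Function.update_of_ne hyx]
      simp only [this]
    have hind2 : ∀ (c : Bool) (R : Gam → Bool), ind (insert x X) b (Function.update R x c) =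
        (if c = b x then 1 else 0) * ind X b R := by
      intro c R
      rw [← hind c R]
      unfold ind
      have : (∀ y ∈ insert x X, Function.update R x c y = b y) ↔
          (c = b x ∧ ∀ y ∈ X, Function.update R x c y = b y) := by
        rw [Finset.forall_mem_insert, Function.update_self]
      by_cases h1 : c = b x <;> by_cases h2 : ∀ y ∈ X, Function.update R x c y = b y
      · rw [if_pos (this.2 ⟨h1, h2⟩), if_pos h1, if_pos h2]; norm_num
      · rw [if_neg (fun h => h2 (this.1 h).2), if_pos h1, if_neg h2]; norm_num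
      · rw [if_neg (fun h => h1 (this.1 h).1), if_neg h1, if_pos h2]; norm_num
      · rw [if_neg (fun h => h1 (this.1 h).1), if_neg h1, if_neg h2]; norm_num
    -- the two conditional integrals
    let A : Bool → ℝ := fun c => ∫ R, ind X b R * g (TR (cut (Function.update R x c) T)) ∂mu
    have hA0 : A false = 0 := by
      simp only [A, cut_update_false]
      exact ih (k + 2) (T \ {x}) (TT_diff hT x)
    have h1 := integral_resample x _ (hm X) ‖g‖ (integrable_ind g X b T)
    rw [ih k T hT] at h1
    simp only [hind] at h1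
    have hA1 : A true = 0 := by
      have h2 : 0 = pp x * A true + (1 - pp x) * A false := h1
      rw [hA0, mul_zero, add_zero] at h2
      rcases mul_eq_zero.1 h2.symm with h3 | h3
      · exact absurd h3 (pp_pos x).ne'
      · exact h3
    rw [integral_resample x _ (hm (insert x X)) ‖g‖ (integrable_ind g (insert x X) b T)]
    simp only [hind2, mul_assoc, integral_const_mul]
    have h3 : ∫ R, ind X b R * g (TR (cut (Function.update R x true) T)) ∂mu = 0 := hA1
    have h4 : ∫ R, ind X b R * g (TR (cut (Function.update R x false) T)) ∂mu = 0 := hA0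
    rw [h3, h4]
    ring

/-- The functions vanish almost surely. -/
lemma ae_zero (g : C(Gam → Bool, ℝ))
    (hg : ∀ k, ∀ T ∈ TT k, ∫ R, g (TR (cut R T)) ∂mu = 0) (k : ℕ) (T : Set Gam) (hT : T ∈ TT k) :
    ∀ᵐ R ∂mu, g (TR (cut R T)) = 0 := by
  classical
  have hint : Integrable (fun R => g (TR (cut R T))) mu := integrable_gTR g T
  have hall : ∀ (E : Set (Gam → Bool)) (_ : MeasurableSet E),
      ∫ R in E, g (TR (cut R T)) ∂mu = 0 := by
    refine MeasurableSpace.induction_on_inter
      (C := fun E _ => ∫ R in E, g (TR (cut R T)) ∂mu = 0)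
      (generateFrom_measurableCylinders (α := fun _ : Gam => Bool)).symm
      isPiSystem_measurableCylinders ?_ ?_ ?_ ?_
    · simp
    · intro E hE
      have hmeas' := MeasurableSet.of_mem_measurableCylinders hE
      obtain ⟨s, S, hS, rfl⟩ := (mem_measurableCylinders E).1 hE
      have hmeas : MeasurableSet (cylinder (α := fun _ : Gam => Bool) s S) := hmeas'
      rw [← integral_indicator hmeas]
      have h1 : (fun R => (cylinder (α := fun _ : Gam => Bool) s S).indicator (fun R => g (TR (cut R T))) R) =
          fun R => ∑ c ∈ (Finset.univ : Finset (s → Bool)).filter (fun c => c ∈ S),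
            ind s (fun y => if hy : y ∈ s then c ⟨y, hy⟩ else false) R * g (TR (cut R T)) := by
        funext R
        have hiff : ∀ c : s → Bool,
            (∀ x ∈ s, R x = (fun y => if hy : y ∈ s then c ⟨y, hy⟩ else false) x) ↔
              s.restrict R = c := by
          intro c
          constructor
          · intro h
            funext y
            have := h y.1 y.2
            simpa using this
          · rintro rfl x hx
            simp [hx]
        by_cases hR : R ∈ cylinder (α := fun _ : Gam => Bool) s S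
        · rw [Set.indicator_of_mem hR]
          rw [mem_cylinder] at hR
          rw [Finset.sum_eq_single (s.restrict R)]
          · unfold ind
            rw [if_pos ((hiff _).2 rfl), one_mul]
          · intro c _ hc
            unfold ind
            rw [if_neg (fun h => hc ((hiff c).1 h).symm), zero_mul]
          · intro h
            exact absurd (Finset.mem_filter.2 ⟨Finset.mem_univ _, hR⟩) h
        · rw [Set.indicator_of_notMem hR]
          rw [mem_cylinder] at hR
          symm
          apply Finset.sum_eq_zero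
          intro c hc
          unfold ind
          rw [if_neg, zero_mul]
          intro h
          apply hR
          rw [(hiff c).1 h]
          exact (Finset.mem_filter.1 hc).2
      rw [h1, integral_finsetSum]
      · apply Finset.sum_eq_zero
        intro c _
        exact cyl_zero g hg _ s k T hT
      · intro c _
        exact integrable_bdd _ ((measurable_ind s _).mul (measurable_gTR g T)) ‖g‖
          (integrable_ind g s _ T)
    · intro E hE h
      have h2 := integral_add_compl hE hint
      rw [h, zero_add, hg k T hT] at h2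
      exact h2
    · intro f hd hf h
      rw [integral_iUnion hf hd hint.integrableOn]
      simp [h]
  exact ae_eq_zero_of_forall_setIntegral_eq_of_sigmaFinite (fun _ _ _ => hint.integrableOn)
    fun E hE _ => hall E hE

/-- Separation. -/
theorem sep (g : C(Gam → Bool, ℝ)) (hg : ∀ k, ∀ T ∈ RT k, ∫ R, g (TR (cut R T)) ∂mu = 0) :
    ∀ a ∈ KK, g a = 0 := by
  intro a ha
  by_contra hne
  have hpos : 0 < |g a| := abs_pos.2 hne
  obtain ⟨H, hH⟩ := exists_finite_dep g |g a| hpos
  obtain ⟨k, T, hT, hmu⟩ := ha H
  apply hmu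
  have h1 := ae_zero g (int_zero g hg) k T hT
  rw [ae_iff] at h1
  refine measure_mono_null ?_ h1
  intro R hR
  rw [Set.mem_ofPred_eq] at hR ⊢
  intro h0
  have h2 := hH a (TR (cut R T)) (fun y hy => (hR y hy).symm)
  rw [h0, sub_zero] at h2
  exact lt_irrefl _ h2

end Pool.Agent.Lib.P2cbQ
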